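import Pool.Statements.S00437
import Pool.Agent.Lib.MP_c80d0d_ag.Main

set_option autoImplicit false
open scoped TensorProduct
open Pool Pool.MP_c80d0d_ag

namespace Pool.Agent.S00437

/-- For every prime p, every field k of characteristic p, and every smooth commutative Hopf algebra A over the dual numbers k[ε], some n admits a matrix coefficient system a_ij in A whose entries and antipodes generate A (i.e. G=Spec A embeds as a closed subgroup of GL_n). -/
theorem result :
    ∀ (p : ℕ), p.Prime → ∀ (k : Type) [Field k] [CharP k p],
    ∀ (A : Type) [CommRing A] [HopfAlgebra (DualNumber k) A]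
      [Algebra.Smooth (DualNumber k) A],
    ∃ (n : ℕ) (a : Fin n → Fin n → A),
      (∀ i j : Fin n, CoalgebraStruct.comul (R := DualNumber k) (a i j)
          = ∑ l : Fin n, a i l ⊗ₜ[DualNumber k] a l j) ∧
      (∀ i j : Fin n, CoalgebraStruct.counit (R := DualNumber k) (a i j)
          = if i = j then 1 else 0) ∧
      Algebra.adjoin (DualNumber k)
          (Set.range (fun ij : Fin n × Fin n => a ij.1 ij.2) ∪
           Set.range (fun ij : Fin n × Fin n =>
              HopfAlgebra.antipode (R := DualNumber k) (a ij.1 ij.2))) = ⊤ := by
  intro p hp k _ _ A _ _ _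
  exact Pool.Agent.Lib.MP_c80d0d_ag.linear_of_smooth k (DualNumber k) A p hp

end Pool.Agent.S00437
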