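import Pool.Statements.S00459
import Pool.Agent.Lib.MP_d03834_ag.Core.All459

set_option autoImplicit false
open Pool Pool.MP_d03834_ag

namespace Pool.Agent.S00459

/-- For n>9 and m≥1, outside a proper Zariski-closed set of n-point configurations in the plane, the degree-d forms vanishing to order m at all n points have dimension max(0, C(d+2,2) − n·C(m+1,2)) for every d>0. -/
theorem result :
    ∀ n : ℕ, 9 < n → ∀ m : ℕ, 0 < m →
      ∃ F : MvPolynomial (Fin n × Fin 2) ℂ, F ≠ 0 ∧
        ∀ P : Fin n → Fin 2 → ℂ,
          MvPolynomial.eval (fun ij : Fin n × Fin 2 => P ij.1 ij.2) F ≠ 0 →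
          ∀ d : ℕ, 0 < d →
            Module.finrank ℂ
              ↥(MvPolynomial.homogeneousSubmodule (Fin 3) ℂ d ⊓
                Submodule.restrictScalars ℂ
                  (⨅ i : Fin n,
                    (Ideal.span
                      ({MvPolynomial.X 0 - MvPolynomial.C (P i 0) * MvPolynomial.X 2,
                        MvPolynomial.X 1 - MvPolynomial.C (P i 1) * MvPolynomial.X 2} :
                        Set (MvPolynomial (Fin 3) ℂ))) ^ m))
            = Nat.choose (d + 2) 2 - n * Nat.choose (m + 1) 2 := by
  intro n hn m hm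
  obtain ⟨F, hF, h⟩ := Pool.Agent.Lib.MP_d03834_ag.Core.shghAll hn hm
  exact ⟨F, hF, fun P hP d _ => h P hP d⟩

end Pool.Agent.S00459
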