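import Pool.Statements.S00601
import Pool.Agent.Lib.MP_03ba20_al.W.H2Core

set_option autoImplicit false
open Pool Pool.MP_03ba20_al

namespace Pool.Agent.S00601

/-- For d at least 3 and any d-regular tree, there is a finite set of automorphism subgroups such that every vertex-transitive subgroup with finite vertex stabilizers acting primitively on each neighbour set is conjugate to one of them. -/
theorem result :
    ∀ d : ℕ, 3 ≤ d → ∀ (V : Type) (G : SimpleGraph V), G.IsTree →
      (∀ v : V, (G.neighborSet v).ncard = d) →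
      ∃ S : Set (Subgroup (G ≃g G)), S.Finite ∧
        ∀ H : Subgroup (G ≃g G),
          (∀ v : V, {h : G ≃g G | h ∈ H ∧ h v = v}.Finite) →
          (∀ v w : V, ∃ h ∈ H, h v = w) →
          (∀ v : V,
            (∀ x ∈ G.neighborSet v, ∀ y ∈ G.neighborSet v,
              ∃ h ∈ H, h v = v ∧ h x = y) ∧
            ∀ B : Set V, B ⊆ G.neighborSet v →
              (∀ h ∈ H, h v = v → ((⇑h) '' B = B ∨ Disjoint ((⇑h) '' B) B)) →
              B.Subsingleton ∨ B = G.neighborSet v) →
          ∃ K ∈ S, ∃ g : G ≃g G, ∀ x : G ≃g G, x ∈ H ↔ g⁻¹ * x * g ∈ K := by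
  exact Pool.Agent.Lib.MP_03ba20_al.W.weiss_of_bound Pool.Agent.Lib.MP_03ba20_al.W.H2.bound

end Pool.Agent.S00601
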