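import Pool.Statements.S00872
import Pool.Agent.Lib.MP_1d7b2e_al.Main

set_option autoImplicit false
open Pool Pool.MP_1d7b2e_al

namespace Pool.Agent.S00872

/-- The negation of the preceding statement: For free groups of rank at least 3, any homomorphism from Aut(F_n) to a group that has finite image on the standard copy of Aut(F_{n-1}) (first n-1 basis elements, last fixed) has finite image on all of Aut(F_n). -/
theorem result :
    ¬ (∀ n : ℕ, 2 ≤ n →
      ∀ (G : Type) [Group G] (φ : MulAut (FreeGroup (Fin (n + 1))) →* G),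
        (φ '' {σ : MulAut (FreeGroup (Fin (n + 1))) |
            σ (FreeGroup.of (Fin.last n)) = FreeGroup.of (Fin.last n) ∧
            (Subgroup.closure (Set.range (fun i : Fin n => FreeGroup.of i.castSucc))).map
                (σ : FreeGroup (Fin (n + 1)) →* FreeGroup (Fin (n + 1))) =
              Subgroup.closure (Set.range (fun i : Fin n => FreeGroup.of i.castSucc))}).Finite →
        (Set.range φ).Finite) := by
  intro h
  obtain ⟨G, _, φ, h1, h2⟩ := Pool.Agent.Lib.MP_1d7b2e_al.main
  refine h2 (h 2 le_rfl G φ (h1.subset (Set.image_mono ?_)))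
  rintro σ ⟨hz, hA⟩
  refine ⟨hz, fun a => ?_⟩
  change Pool.Agent.Lib.MP_1d7b2e_al.A0.map
    (σ : FreeGroup (Fin 3) →* FreeGroup (Fin 3)) = Pool.Agent.Lib.MP_1d7b2e_al.A0 at hA
  constructor
  · intro ha
    rw [← hA]
    exact ⟨a, ha, rfl⟩
  · intro ha
    rw [← hA] at ha
    obtain ⟨b, hb, e⟩ := ha
    have : b = a := σ.injective e
    rwa [← this]

end Pool.Agent.S00872
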