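import Pool.Statements.S01168
import Pool.Agent.Lib.MP_3614fc_al.Final

set_option autoImplicit false
open Filter Topology
open Pool Pool.MP_3614fc_al

namespace Pool.Agent.S01168

/-- The negation of the preceding statement: For every infinite finitely generated virtually nilpotent group G and every finite symmetric generating set S, some horofunction of the word metric d_S (a pointwise limit of b_x with ∣x∣ going to infinity) has finite orbit under the action (g·f)(y)=f(g⁻¹y)−f(g⁻¹). -/
theorem result :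
    ¬ (∀ (G : Type) [Group G], Group.FG G → Infinite G →
      (∃ H : Subgroup G, H.FiniteIndex ∧ Group.IsNilpotent ↥H) →
      ∀ S : Finset G, (∀ s ∈ S, s⁻¹ ∈ S) → Subgroup.closure (S : Set G) = ⊤ →
        ∃ f : G → ℝ,
          (∃ x : ℕ → G,
            Tendsto (fun n : ℕ => ((sInf {m : ℕ | ∃ l : List G, l.length = m ∧
                (∀ s ∈ l, s ∈ S) ∧ l.prod = (x n)⁻¹} : ℕ) : ℝ)) atTop atTop ∧
            ∀ y : G, Tendsto (fun n : ℕ =>
                ((sInf {m : ℕ | ∃ l : List G, l.length = m ∧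
                  (∀ s ∈ l, s ∈ S) ∧ l.prod = (x n)⁻¹ * y} : ℕ) : ℝ) -
                ((sInf {m : ℕ | ∃ l : List G, l.length = m ∧
                  (∀ s ∈ l, s ∈ S) ∧ l.prod = (x n)⁻¹} : ℕ) : ℝ))
              atTop (nhds (f y))) ∧
          (Set.range (fun g : G => fun y : G => f (g⁻¹ * y) - f g⁻¹)).Finite) := by
  intro H
  obtain ⟨f, ⟨x, -, hx⟩, hf⟩ := H Pool.Agent.Lib.MP_3614fc_al.GG inferInstance inferInstance
    Pool.Agent.Lib.MP_3614fc_al.virt_nilp Pool.Agent.Lib.MP_3614fc_al.SS
    Pool.Agent.Lib.MP_3614fc_al.SS_inv Pool.Agent.Lib.MP_3614fc_al.SS_top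
  exact Pool.Agent.Lib.MP_3614fc_al.no_finite_orbit f x hx hf

end Pool.Agent.S01168
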