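import Pool.Statements.S01363
import Pool.Agent.Lib.MP_485c8a_al.Main

set_option autoImplicit false
open Pool Pool.MP_485c8a_al

namespace Pool.Agent.S01363

/-- For every field F, n > 2, and non-central α, β in SL_n(F), β equals a product of n matrices g_i α g_i⁻¹ with each g_i an invertible n×n matrix over F. -/
theorem result :
    ∀ (F : Type) [Field F] (n : ℕ), 2 < n →
      ∀ α β : Matrix.SpecialLinearGroup (Fin n) F,
        α ∉ Subgroup.center (Matrix.SpecialLinearGroup (Fin n) F) →
        β ∉ Subgroup.center (Matrix.SpecialLinearGroup (Fin n) F) →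
        ∃ g : Fin n → Matrix.GeneralLinearGroup (Fin n) F,
          (β : Matrix (Fin n) (Fin n) F) =
            (List.ofFn (fun i =>
              ((g i : Matrix.GeneralLinearGroup (Fin n) F) : Matrix (Fin n) (Fin n) F) *
                (α : Matrix (Fin n) (Fin n) F) *
                (((g i)⁻¹ : Matrix.GeneralLinearGroup (Fin n) F) : Matrix (Fin n) (Fin n) F))).prod := by
  intro F _ n hn α β hα hβ
  obtain ⟨A, a1, a2, a3⟩ := Pool.Agent.Lib.MP_485c8a_al.sl_facts α hα
  obtain ⟨B, b1, b2, b3⟩ := Pool.Agent.Lib.MP_485c8a_al.sl_facts β hβ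
  have h := Pool.Agent.Lib.MP_485c8a_al.main_lin (by simp; omega) a2 b2 a3 b3
  have hf : Module.finrank F (Fin n → F) = n := by simp
  rw [hf] at h
  rw [← b1]
  exact Pool.Agent.Lib.MP_485c8a_al.pp_matrix _ a1 h

end Pool.Agent.S01363
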