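import Pool.Statements.S01749
import Pool.Agent.Lib.MP_67573e_al.Area

set_option autoImplicit false
open Pool Pool.MP_67573e_al

namespace Pool.Agent.S01749

/-- Some group acting geometrically on a CAT(0) cube complex (via its median-graph 1-skeleton) has a finitely presented subgroup whose Dehn function is not bounded by any exponential C^(n+1). -/
theorem result :
  ∃ (G : Type) (_ : Group G) (V : Type) (_ : MulAction G V) (Γ : SimpleGraph V),
    Nonempty V ∧ Γ.Connected ∧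
    (∀ v : V, (Γ.neighborSet v).Finite) ∧
    (∀ x y z : V, ∃! m : V,
        Γ.dist x m + Γ.dist m y = Γ.dist x y ∧
        Γ.dist y m + Γ.dist m z = Γ.dist y z ∧
        Γ.dist x m + Γ.dist m z = Γ.dist x z) ∧
    (∀ (g : G) (u v : V), Γ.Adj u v → Γ.Adj (g • u) (g • v)) ∧
    (∀ v : V, (MulAction.stabilizer G v : Set G).Finite) ∧
    (∃ S : Finset V, ∀ v : V, ∃ g : G, ∃ s ∈ S, g • s = v) ∧
    ∃ (H : Subgroup G) (n : ℕ) (R : Finset (FreeGroup (Fin n)))
      (φ : FreeGroup (Fin n) →* G),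
      φ.range = H ∧
      φ.ker = Subgroup.normalClosure (R : Set (FreeGroup (Fin n))) ∧
      ∀ C : ℕ, ∃ w ∈ φ.ker,
        ¬ ∃ L : List (FreeGroup (Fin n) × FreeGroup (Fin n)),
          L.length ≤ C ^ (w.toWord.length + 1) ∧
          (∀ p ∈ L, p.2 ∈ R ∨ p.2⁻¹ ∈ R) ∧
          (L.map (fun p => p.1 * p.2 * p.1⁻¹)).prod = w := by
  classical
  have := Pool.Agent.Lib.MP_67573e_al.fin_E2
  exact Pool.Agent.Lib.MP_67573e_al.package Pool.Agent.Lib.MP_67573e_al.PA
    Pool.Agent.Lib.MP_67573e_al.R0 Pool.Agent.Lib.MP_67573e_al.R0_finite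
    Pool.Agent.Lib.MP_67573e_al.phi0 Pool.Agent.Lib.MP_67573e_al.phi0_ker
    Pool.Agent.Lib.MP_67573e_al.area

end Pool.Agent.S01749
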