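import Pool.Statements.S02529
import Pool.Agent.Lib.MP_a15413_al.Wreath

set_option autoImplicit false
open Classical
open Pool Pool.MP_a15413_al

namespace Pool.Agent.S02529

/-- For nontrivial finite F1, F2 and finitely generated H1, H2: if the lamplighter groups F1 wr H1 and F2 wr H2 are quasi-isometric (word metrics), then Cayley graphs of H1 and H2 have equally many ends. -/
theorem result :
    ∀ (F₁ F₂ H₁ H₂ : Type) [Group F₁] [Group F₂] [Group H₁] [Group H₂]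
      [Finite F₁] [Finite F₂] [Nontrivial F₁] [Nontrivial F₂],
      Group.FG H₁ → Group.FG H₂ →
      ∀ (L₁ : Subgroup (RegularWreathProduct F₁ H₁)) (L₂ : Subgroup (RegularWreathProduct F₂ H₂)),
        L₁ = Subgroup.closure
            (Set.range (fun a : F₁ =>
                (⟨Pi.mulSingle (1 : H₁) a, (1 : H₁)⟩ : RegularWreathProduct F₁ H₁)) ∪
             Set.range (fun h : H₁ =>
                (⟨(1 : H₁ → F₁), h⟩ : RegularWreathProduct F₁ H₁))) →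
        L₂ = Subgroup.closure
            (Set.range (fun a : F₂ =>
                (⟨Pi.mulSingle (1 : H₂) a, (1 : H₂)⟩ : RegularWreathProduct F₂ H₂)) ∪
             Set.range (fun h : H₂ =>
                (⟨(1 : H₂ → F₂), h⟩ : RegularWreathProduct F₂ H₂))) →
        (∃ (S₁ : Finset ↥L₁) (S₂ : Finset ↥L₂),
          Subgroup.closure (↑S₁ : Set ↥L₁) = ⊤ ∧ Subgroup.closure (↑S₂ : Set ↥L₂) = ⊤ ∧
          ∃ f : ↥L₁ → ↥L₂, ∃ K C : ℝ, 0 < K ∧ 0 ≤ C ∧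
            (∀ x y : ↥L₁,
              ((SimpleGraph.fromRel (fun a b : ↥L₂ => ∃ s ∈ S₂, b = a * s)).dist (f x) (f y) : ℝ)
                  ≤ K * ((SimpleGraph.fromRel (fun a b : ↥L₁ => ∃ s ∈ S₁, b = a * s)).dist x y : ℝ) + C ∧
              ((SimpleGraph.fromRel (fun a b : ↥L₁ => ∃ s ∈ S₁, b = a * s)).dist x y : ℝ)
                  ≤ K * ((SimpleGraph.fromRel (fun a b : ↥L₂ => ∃ s ∈ S₂, b = a * s)).dist (f x) (f y) : ℝ) + C) ∧
            (∀ z : ↥L₂, ∃ x : ↥L₁,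
              ((SimpleGraph.fromRel (fun a b : ↥L₂ => ∃ s ∈ S₂, b = a * s)).dist z (f x) : ℝ) ≤ C)) →
        ∀ (T₁ : Finset H₁) (T₂ : Finset H₂),
          Subgroup.closure (↑T₁ : Set H₁) = ⊤ → Subgroup.closure (↑T₂ : Set H₂) = ⊤ →
          Cardinal.mk ↥((SimpleGraph.fromRel (fun a b : H₁ => ∃ s ∈ T₁, b = a * s)).componentComplFunctor.sections)
            = Cardinal.mk ↥((SimpleGraph.fromRel (fun a b : H₂ => ∃ s ∈ T₂, b = a * s)).componentComplFunctor.sections) := by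
  intro F₁ F₂ H₁ H₂ _ _ _ _ _ _ _ _ _ _ L₁ L₂ e₁ e₂ h T₁ T₂ hT₁ hT₂
  subst e₁ e₂
  obtain ⟨S₁, S₂, hS₁, hS₂, f, K, C, hK, hC, h1, h2⟩ := h
  obtain ⟨c₁, m₁⟩ := Lib.MP_a15413_al.model hT₁ hS₁
  obtain ⟨c₂, m₂⟩ := Lib.MP_a15413_al.model hT₂ hS₂
  exact Lib.MP_a15413_al.main_graph (Lib.MP_a15413_al.cay_nice hT₁) (Lib.MP_a15413_al.cay_nice hT₂)
    (Lib.MP_a15413_al.cay_vt T₁) (Lib.MP_a15413_al.cay_vt T₂) Lib.MP_a15413_al.fs_cls
    Lib.MP_a15413_al.fs_cls (Lib.MP_a15413_al.sw_group F₁) (Lib.MP_a15413_al.sw_group F₂)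
    (m₁.qi m₂ f hK hC h1 h2)

end Pool.Agent.S02529
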