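import Pool.Statements.S02570
import Pool.Agent.Lib.MP_a45045_al.Main

set_option autoImplicit false
open Pool Pool.MP_a45045_al

namespace Pool.Agent.S02570

/-- The negation of the preceding statement: If a group is generated by (equivalently, is the product of) two normal subgroups in each of which every pair x, y has some trivial iterated commutator [x,y,…,y], then every pair in the whole group has this property. -/
theorem result :
    ¬ (∀ (G : Type) [Group G] (H K : Subgroup G), H.Normal → K.Normal → H ⊔ K = ⊤ →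
      (∀ x ∈ H, ∀ y ∈ H, ∃ n : ℕ, (fun a : G => a⁻¹ * y⁻¹ * a * y)^[n] x = 1) →
      (∀ x ∈ K, ∀ y ∈ K, ∃ n : ℕ, (fun a : G => a⁻¹ * y⁻¹ * a * y)^[n] x = 1) →
      ∀ x y : G, ∃ n : ℕ, (fun a : G => a⁻¹ * y⁻¹ * a * y)^[n] x = 1) := by
  exact Pool.Agent.Lib.MP_a45045_al.not_hyp

end Pool.Agent.S02570
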