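import Pool.Statements.S03285
import Pool.Agent.Lib.MP_decb17_al.Main

set_option autoImplicit false
open Pool Pool.MP_decb17_al

namespace Pool.Agent.S03285

/-- There is a torsion-free, finitely presented, residually finite group none of whose finite-index subgroups is diffuse, i.e. in each such subgroup some finite set of ≥2 elements has fewer than two extremal points. -/
theorem result :
    ∃ (G : Type) (_ : Group G),
      (∀ g : G, g ≠ 1 → ¬ IsOfFinOrder g) ∧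
      (∃ (n : ℕ) (rels : Finset (FreeGroup (Fin n))),
        Nonempty (G ≃* PresentedGroup (rels : Set (FreeGroup (Fin n))))) ∧
      (∀ g : G, g ≠ 1 → ∃ N : Subgroup G, N.Normal ∧ N.FiniteIndex ∧ g ∉ N) ∧
      ¬ ∃ H : Subgroup G, H.FiniteIndex ∧
        ∀ A : Finset G, (∀ x ∈ A, x ∈ H) → 2 ≤ A.card →
          ∃ a ∈ A, ∃ b ∈ A, a ≠ b ∧
            (∀ g ∈ H, g ≠ 1 → g * a ∉ A ∨ g⁻¹ * a ∉ A) ∧
            (∀ g ∈ H, g ≠ 1 → g * b ∉ A ∨ g⁻¹ * b ∉ A) := by
  refine ⟨Lib.MP_decb17_al.G, inferInstance, ?_, Lib.MP_decb17_al.finitely_presented,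
    Lib.MP_decb17_al.residually_finite, ?_⟩
  · intro g hg h
    obtain ⟨n, hn, h⟩ := isOfFinOrder_iff_pow_eq_one.mp h
    obtain ⟨m, rfl⟩ := Nat.exists_eq_succ_of_ne_zero hn.ne'
    exact hg (Lib.MP_decb17_al.torsion_free g m h)
  · rintro ⟨H, hH, h⟩
    obtain ⟨A, h1, h2, h3⟩ := Lib.MP_decb17_al.not_diffuse H
    obtain ⟨a, ha, -, -, -, h4, -⟩ := h A h1 h2
    obtain ⟨g, hg, hg1, h5, h6⟩ := h3 a ha
    rcases h4 g hg hg1 with h7 | h7
    · exact h7 h5
    · exact h7 h6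

end Pool.Agent.S03285
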