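import Pool.Statements.S03663
import Pool.Agent.Lib.MP_010b1d_an.Main

set_option autoImplicit false
open MeasureTheory
open Pool Pool.MP_010b1d_an

namespace Pool.Agent.S03663

/-- For n≥2, bounded open Ω in ℝⁿ, f continuous on the closure, K-quasiregular in Ω (W^{1,n}_loc, ∣Df∣ⁿ≤K·J_f a.e.) and δ-Hölder on ∂Ω: f is Hölder on the closure with exponent min(δ, K_I(f)^{1/(1−n)}). -/
theorem result :
    ∀ (n : ℕ), 2 ≤ n →
    ∀ (Ω : Set (EuclideanSpace ℝ (Fin n))), IsOpen Ω → Bornology.IsBounded Ω →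
    ∀ (f : EuclideanSpace ℝ (Fin n) → EuclideanSpace ℝ (Fin n))
      (g : EuclideanSpace ℝ (Fin n) → (EuclideanSpace ℝ (Fin n) →L[ℝ] EuclideanSpace ℝ (Fin n)))
      (K M δ : ℝ),
    ContinuousOn f (closure Ω) →
    AEStronglyMeasurable g (volume.restrict Ω) →
    (∀ C : Set (EuclideanSpace ℝ (Fin n)), IsCompact C → C ⊆ Ω →
        IntegrableOn (fun x => ‖g x‖ ^ n) C) →
    (∀ φ : EuclideanSpace ℝ (Fin n) → ℝ, ContDiff ℝ 1 φ → HasCompactSupport φ →
        tsupport φ ⊆ Ω → ∀ i : Fin n,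
        ∫ x in Ω, (fderiv ℝ φ x (EuclideanSpace.single i 1)) • f x
          = - ∫ x in Ω, φ x • g x (EuclideanSpace.single i 1)) →
    1 ≤ K →
    (∀ᵐ x ∂(volume.restrict Ω),
        ‖g x‖ ^ n ≤ K * LinearMap.det
          ((g x : EuclideanSpace ℝ (Fin n) →ₗ[ℝ] EuclideanSpace ℝ (Fin n)))) →
    0 ≤ M → 0 < δ → δ ≤ 1 →
    (∀ x ∈ frontier Ω, ∀ y ∈ frontier Ω, dist (f x) (f y) ≤ M * dist x y ^ δ) →
    ∃ M1 : ℝ, ∀ x ∈ closure Ω, ∀ y ∈ closure Ω,
      dist (f x) (f y) ≤ M1 * dist x y ^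
        (min δ ((sInf {K' : ℝ | 1 ≤ K' ∧ ∀ᵐ x ∂(volume.restrict Ω),
            ∀ h : EuclideanSpace ℝ (Fin n), ‖h‖ = 1 →
              LinearMap.det ((g x : EuclideanSpace ℝ (Fin n) →ₗ[ℝ] EuclideanSpace ℝ (Fin n)))
                ≤ K' * ‖g x h‖ ^ n}) ^ (1 / (1 - (n : ℝ))))) := by
  intro n hn Ω hΩ hbd f g K M δ hf hgm hgi hweak hK hout hM hδ0 hδ1 hH
  set S := {K' : ℝ | 1 ≤ K' ∧ ∀ᵐ x ∂(volume.restrict Ω),
    ∀ h : EuclideanSpace ℝ (Fin n), ‖h‖ = 1 →
      LinearMap.det ((g x : EuclideanSpace ℝ (Fin n) →ₗ[ℝ] EuclideanSpace ℝ (Fin n)))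
        ≤ K' * ‖g x h‖ ^ n} with hS
  have hn2 : (2 : ℝ) ≤ n := by exact_mod_cast hn
  have hexp : (1 / (1 - (n : ℝ))) < 0 := one_div_neg.2 (by linarith)
  rcases S.eq_empty_or_nonempty with hE | hne
  · rw [hE, Real.sInf_empty, Real.zero_rpow hexp.ne, min_eq_right hδ0.le]
    obtain ⟨B, hB⟩ := hbd.isCompact_closure.exists_bound_of_continuousOn hf
    refine ⟨2 * B, fun x hx y hy => ?_⟩
    rw [Real.rpow_zero, mul_one]
    linarith [dist_le_norm_add_norm (f x) (f y), hB x hx, hB y hy]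
  have hbdd : BddBelow S := ⟨1, fun K' hK' => hK'.1⟩
  have hKI1 : 1 ≤ sInf S := le_csInf hne fun K' hK' => hK'.1
  obtain ⟨u, -, hu, huS⟩ := exists_seq_tendsto_sInf hne hbdd
  have hQ : Pool.Agent.Lib.MP_010b1d_an.QR Ω f g K (sInf S) :=
    { opn := hΩ
      cont := hf.mono subset_closure
      meas := hgm
      int := hgi
      weak := hweak
      contc := hf
      Kpos := by linarith
      KIpos := by linarith
      out := hout
      inn := by
        have h1 := ae_all_iff.2 fun j => (huS j).2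
        filter_upwards [h1] with x hx h hh
        exact ge_of_tendsto' (hu.mul_const _) fun j => hx j h hh }
  set α := (sInf S) ^ (1 / (1 - (n : ℝ))) with hα
  have hα0 : 0 < α := Real.rpow_pos_of_pos (by linarith) _
  have hα1 : α ^ (n - 1) * sInf S = 1 := by
    rw [hα, ← Real.rpow_natCast, ← Real.rpow_mul (by linarith), Nat.cast_sub (by omega),
      show 1 / (1 - (n : ℝ)) * ((n : ℝ) - (1 : ℕ)) = -1 by
        have : (1 - (n : ℝ)) ≠ 0 := by linarith
        push_cast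
        field_simp
        ring,
      Real.rpow_neg_one, inv_mul_cancel₀ (by linarith)]
  obtain ⟨D, hD⟩ := Metric.isBounded_iff.1 hbd.closure
  have hδ' : 0 < min δ α := lt_min hδ0 hα0
  have hD1 : (1 : ℝ) ≤ max D 1 := le_max_right _ _
  obtain ⟨M1, hM1⟩ := hQ.holder hn hbd hα0 hα1 hδ' (min_le_right _ _)
    ((min_le_left _ _).trans hδ1) (M := M * max D 1 + 1) (by positivity) (fun x hx y hy => by
      rw [← dist_eq_norm]
      refine (hH x hx y hy).trans ?_
      have h1 : dist x y ≤ max D 1 :=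
        (hD (frontier_subset_closure hx) (frontier_subset_closure hy)).trans (le_max_left _ _)
      have h2 : dist x y ^ δ = dist x y ^ (δ - min δ α) * dist x y ^ min δ α := by
        rw [← Real.rpow_add' dist_nonneg (by rw [sub_add_cancel]; exact hδ0.ne'), sub_add_cancel]
      have h3 : dist x y ^ (δ - min δ α) ≤ max D 1 := by
        refine (Real.rpow_le_rpow dist_nonneg h1 (by linarith [min_le_left δ α])).trans ?_
        simpa using Real.rpow_le_rpow_of_exponent_le hD1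
          (show δ - min δ α ≤ 1 by linarith)
      have h4 : 0 ≤ dist x y ^ min δ α := Real.rpow_nonneg dist_nonneg _
      rw [h2, ← mul_assoc]
      refine mul_le_mul_of_nonneg_right ?_ h4
      have := mul_le_mul_of_nonneg_left h3 hM
      linarith)
  exact ⟨M1, fun x hx y hy => by rw [dist_eq_norm (f x)]; exact hM1 x hx y hy⟩

end Pool.Agent.S03663
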