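import Pool.Statements.S05299
import Pool.Agent.Lib.MP_896b3c_an.Final

set_option autoImplicit false
open Pool Pool.MP_896b3c_an

namespace Pool.Agent.S05299

/-- There is a C^3 area-preserving monotone twist diffeomorphism of the annulus with an invariant continuous graph on which the induced circle map has irrational rotation number but is not topologically conjugate to a rotation. -/
theorem result :
    ∃ F : ℝ × ℝ → ℝ × ℝ, ContDiff ℝ 3 F ∧ Function.Bijective F ∧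
      (∀ x y : ℝ, F (x + 1, y) = F (x, y) + (1, 0)) ∧
      (∀ p : ℝ × ℝ, LinearMap.det (fderiv ℝ F p).toLinearMap = 1) ∧
      (∀ p : ℝ × ℝ, 0 < (fderiv ℝ F p (0, 1)).1) ∧
      ∃ γ : ℝ → ℝ, Continuous γ ∧ (∀ x, γ (x + 1) = γ x) ∧
        ∃ g : CircleDeg1Lift, (∀ x, F (x, γ x) = (g x, γ (g x))) ∧
          Irrational g.translationNumber ∧
          ¬ ∃ h : ℝ ≃ₜ ℝ, ∃ a : ℝ, (∀ x, h (x + 1) = h x + 1) ∧
              ∀ x, h (g x) = h x + a := by
  obtain ⟨φ, h1, h2, γ, h3, h4, g, -, -, h5, h6, h7⟩ := Pool.Agent.Lib.MP_896b3c_an.main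
  refine ⟨Pool.Agent.Lib.MP_896b3c_an.stdMap φ,
    (Pool.Agent.Lib.MP_896b3c_an.stdMap_contDiff h1).of_le (WithTop.coe_le_coe.2 (le_top (a := (3 : ℕ∞)))),
    Pool.Agent.Lib.MP_896b3c_an.stdMap_bijective φ, fun x y => ?_,
    Pool.Agent.Lib.MP_896b3c_an.stdMap_det h1, fun p => ?_, γ, h3, h4, g, h5, h6, h7⟩
  · simp only [Pool.Agent.Lib.MP_896b3c_an.stdMap, h2]
    ext <;> simp
    ring
  · rw [Pool.Agent.Lib.MP_896b3c_an.stdMap_fderiv h1]
    simp

end Pool.Agent.S05299
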