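import Pool.Statements.S05624
import Pool.Agent.Lib.MP_a13136_an.Main

set_option autoImplicit false
open Finset
open Pool Pool.MP_a13136_an

namespace Pool.Agent.S05624

/-- The negation of the preceding statement: For every 1<p<2 and every complex polynomial P, the norm of P(T) on 2-dimensional complex l^p, with T = 2^(-1/p)[[1,-1],[1,1]], is at most the norm of P(S) on l^p, where S is the shift (tested on finitely supported sequences). -/
theorem result :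
    ¬ (∀ p : ℝ, 1 < p → p < 2 → ∀ P : Polynomial ℂ, ∀ r : ℝ, 0 ≤ r → ∀ x : Fin 2 → ℂ,
    r ^ p * (‖x 0‖ ^ p + ‖x 1‖ ^ p) <
      ‖(Matrix.mulVec (Polynomial.aeval ((((2:ℝ) ^ (-1 / p) : ℝ) : ℂ) • !![(1:ℂ), -1; 1, 1]) P) x) 0‖ ^ p
      + ‖(Matrix.mulVec (Polynomial.aeval ((((2:ℝ) ^ (-1 / p) : ℝ) : ℂ) • !![(1:ℂ), -1; 1, 1]) P) x) 1‖ ^ p →
    ∃ N : ℕ, ∃ y : ℕ → ℂ, (∀ j : ℕ, N ≤ j → y j = 0) ∧
      r ^ p * (∑ j ∈ Finset.range N, ‖y j‖ ^ p) <
        ∑ n ∈ Finset.range (N + P.natDegree + 1),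
          ‖∑ k ∈ Finset.range (n + 1), P.coeff k * y (n - k)‖ ^ p) := by
  intro h
  obtain ⟨p, hp1, hp2, P, r, hr, x, hx, hy⟩ := Pool.Agent.Lib.MP_a13136_an.counterexample
  obtain ⟨N, y, h1, h2⟩ := h p hp1 hp2 P r hr x hx
  exact absurd h2 (not_lt.2 (hy N y h1))

end Pool.Agent.S05624
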