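import Pool.Statements.S06669
import Pool.Agent.Lib.MP_f225de_an.RG4
import Pool.Agent.Lib.MP_f225de_an.RG5
import Pool.Agent.Lib.MP_f225de_an.RG6
import Pool.Agent.Lib.MP_f225de_an.RG8a
import Pool.Agent.Lib.MP_f225de_an.RG10
import Pool.Agent.Lib.MP_f225de_an.RG13
import Pool.Agent.Lib.MP_f225de_an.RG19
import Pool.Agent.Lib.MP_f225de_an.RG33

set_option autoImplicit false
open Pool Pool.MP_f225de_an

namespace Pool.Agent.S06669

/-- For every n ≥ 1 and every monic complex polynomial p of degree n, the length (1-dimensional Hausdorff measure) of the set where ∣p(z)∣ = 1 is at most the length of the set where ∣z^n − 1∣ = 1. -/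
theorem result :
    ∀ n : ℕ, 1 ≤ n → ∀ p : Polynomial ℂ, p.Monic → p.natDegree = n →
      MeasureTheory.Measure.hausdorffMeasure (1 : ℝ) {z : ℂ | ‖p.eval z‖ = 1} ≤
        MeasureTheory.Measure.hausdorffMeasure (1 : ℝ) {z : ℂ | ‖z ^ n - 1‖ = 1} := by
  refine Lib.MP_f225de_an.Nu.final_glob fun n h3 => ?_
  rcases le_or_gt n 4 with h | h4
  · exact Lib.MP_f225de_an.Nu.glob4 (Lib.MP_f225de_an.Tb.run4_ok h3 h)
  rcases le_or_gt n 5 with h | h5
  · exact Lib.MP_f225de_an.Nu.glob5 (Lib.MP_f225de_an.Tb.run5_ok h4 h)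
  rcases le_or_gt n 7 with h | h7
  · exact Lib.MP_f225de_an.Nu.glob6 (Lib.MP_f225de_an.Tb.run6_ok h5 h)
  rcases le_or_gt n 9 with h | h9
  · exact Lib.MP_f225de_an.Nu.glob8a (Lib.MP_f225de_an.Tb.run8a_ok h7 h)
  rcases le_or_gt n 12 with h | h12
  · exact Lib.MP_f225de_an.Nu.glob10 (Lib.MP_f225de_an.Tb.run10_ok h9 h)
  rcases le_or_gt n 18 with h | h18
  · exact Lib.MP_f225de_an.Nu.glob13 (Lib.MP_f225de_an.Tb.run13_ok h12 h)
  rcases le_or_gt n 32 with h | h32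
  · exact Lib.MP_f225de_an.Nu.glob19 (Lib.MP_f225de_an.Tb.run19_ok h18 h)
  exact Lib.MP_f225de_an.Nu.glob33 (Lib.MP_f225de_an.Tb.run33_ok h32)

end Pool.Agent.S06669
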