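import Pool.Statements.S07615
import Pool.Agent.Lib.MP_2127f1_co.Main

set_option autoImplicit false
open Pool Pool.MP_2127f1_co

namespace Pool.Agent.S07615

/-- For every Laman graph on n vertices and every generic real planar placement, the complex placements with the same squared edge lengths, counted up to equality of all pairwise squared distances, number at least 2^(n-3). -/
theorem result :
  ∀ n : ℕ, ∀ G : SimpleGraph (Fin n),
    G.edgeSet.ncard = 2 * n - 3 →
    (∀ s : Finset (Fin n), 2 ≤ s.card →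
      {e : Sym2 (Fin n) | e ∈ G.edgeSet ∧ ∀ v ∈ e, v ∈ s}.ncard ≤ 2 * s.card - 3) →
    ∀ p : Fin n → Fin 2 → ℝ,
      AlgebraicIndependent ℚ (fun x : Fin n × Fin 2 => p x.1 x.2) →
      2 ^ (n - 3) ≤ {D : Fin n → Fin n → ℂ | ∃ q : Fin n → Fin 2 → ℂ,
          (∀ u v, G.Adj u v →
            ∑ i, (q u i - q v i) ^ 2 = ∑ i, ((p u i - p v i : ℝ) : ℂ) ^ 2) ∧
          D = fun u v => ∑ i, (q u i - q v i) ^ 2}.ncard := by
  classical
  intro n G hE hS p hp
  rcases Nat.lt_or_ge n 2 with hn | hn
  · have hsub : Subsingleton (Fin n) := Fin.subsingleton_iff_le_one.mpr (by omega)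
    have h1 : {D : Fin n → Fin n → ℂ | ∃ q : Fin n → Fin 2 → ℂ,
          (∀ u v, G.Adj u v →
            ∑ i, (q u i - q v i) ^ 2 = ∑ i, ((p u i - p v i : ℝ) : ℂ) ^ 2) ∧
          D = fun u v => ∑ i, (q u i - q v i) ^ 2} = {0} := by
      ext D
      simp only [Set.mem_ofPred_eq, Set.mem_singleton_iff]
      constructor
      · rintro ⟨q, -, rfl⟩
        funext u v
        rw [Subsingleton.elim u v]
        simp
      · rintro rfl
        refine ⟨0, fun u v h => absurd (Subsingleton.elim u v) h.ne, ?_⟩
        funext u v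
        simp
    rw [h1, Set.ncard_singleton, show n - 3 = 0 by omega, pow_zero]
  · obtain ⟨m, rfl⟩ := Nat.exists_eq_add_of_le' hn
    have hL : Pool.Agent.Lib.MP_2127f1_co.Laman Finset.univ G.edgeFinset := by
      refine ⟨fun e he => G.not_isDiag_of_mem_edgeSet (SimpleGraph.mem_edgeFinset.mp he),
        fun e _ => by simp, ?_, fun X _ hX => ?_⟩
      · rw [← SimpleGraph.coe_edgeFinset, Set.ncard_coe_finset] at hE
        rw [hE, Finset.card_univ, Fintype.card_fin]
        omega
      · have h1 := hS X hX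
        have h2 : {e : Sym2 (Fin (m + 2)) | e ∈ G.edgeSet ∧ ∀ v ∈ e, v ∈ X} =
            (G.edgeFinset.filter fun e => e ∈ X.sym2 : Finset _) := by
          ext e
          simp [Finset.mem_sym2_iff]
        rw [h2, Set.ncard_coe_finset] at h1
        unfold Pool.Agent.Lib.MP_2127f1_co.ie
        omega
    have h := Pool.Agent.Lib.MP_2127f1_co.count_classes m (Fintype.card_fin _) G.edgeFinset hL p hp
    simpa only [SimpleGraph.mem_edgeFinset, SimpleGraph.mem_edgeSet] using h

end Pool.Agent.S07615
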