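import Pool.Statements.S08058
-- import your own Pool.Agent.* helpers here

set_option autoImplicit false
open Pool Pool.MP_351e72_co

namespace Pool.Agent.S08058

/-- The negation of the preceding statement: For h hyperbolic w.r.t. e of degree d and v_j in the closed cone summing to e with traces ≤ ε, every real zero of ∏(1−D_{v_j})h(te) is ≤ some zero of the one for v = (ε/d)e (k times), (1−kε/d)e, then 0s, k=⌊d/ε⌋. -/
theorem result :
    ¬ (∀ (n d m : ℕ) (h : MvPolynomial (Fin n) ℝ) (e : Fin n → ℝ) (ε : ℝ),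
      h.IsHomogeneous d →
      MvPolynomial.eval e h ≠ 0 →
      (∀ (x : Fin n → ℝ) (z : ℂ),
          MvPolynomial.aeval (fun i => z * (e i : ℂ) - (x i : ℂ)) h = 0 → z.im = 0) →
      0 < ε → 0 < m → (d : ℝ) ≤ (m : ℝ) * ε →
      ∀ v : Fin m → Fin n → ℝ,
        (∀ j, ∀ t : ℝ, t < 0 → MvPolynomial.eval (fun i => t * e i - v j i) h ≠ 0) →
        (∑ j, v j = e) →
        (∀ j, (∑ i, v j i * MvPolynomial.eval e (MvPolynomial.pderiv i h))
              / MvPolynomial.eval e h ≤ ε) →
        ∀ t : ℝ,
          MvPolynomial.eval (fun i => t * e i)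
            (((List.ofFn (fun j : Fin m =>
                ((1 : Module.End ℝ (MvPolynomial (Fin n) ℝ)) - ∑ i : Fin n,
                  v j i • (MvPolynomial.pderiv (R := ℝ) i).toLinearMap))).prod :
                Module.End ℝ (MvPolynomial (Fin n) ℝ)) h) = 0 →
          ∃ s : ℝ, t ≤ s ∧
            MvPolynomial.eval (fun i => s * e i)
              (((List.ofFn (fun j : Fin m =>
                  ((1 : Module.End ℝ (MvPolynomial (Fin n) ℝ)) - ∑ i : Fin n,
                    ((if (j : ℕ) < ⌊(d : ℝ) / ε⌋₊ then ε / (d : ℝ)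
                      else if (j : ℕ) = ⌊(d : ℝ) / ε⌋₊
                        then 1 - (⌊(d : ℝ) / ε⌋₊ : ℝ) * ε / (d : ℝ)
                      else 0) * e i) •
                    (MvPolynomial.pderiv (R := ℝ) i).toLinearMap))).prod :
                  Module.End ℝ (MvPolynomial (Fin n) ℝ)) h) = 0) := by
  intro H
  have hfl : ⌊((26 : ℕ) : ℝ) / (25 / 2 : ℝ)⌋₊ = 2 := by
    rw [Nat.floor_eq_iff (by norm_num)]
    norm_num
  have h25 : ∀ i : Fin 2, MvPolynomial.pderiv i (25 : MvPolynomial (Fin 2) ℝ) = 0 := fun i => by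
    simpa using (MvPolynomial.pderiv i).map_natCast 25
  have h24 : ∀ i : Fin 2, MvPolynomial.pderiv i (24 : MvPolynomial (Fin 2) ℝ) = 0 := fun i => by
    simpa using (MvPolynomial.pderiv i).map_natCast 24
  have key := H 2 26 3 (MvPolynomial.X 0 * MvPolynomial.X 1 ^ 25) (fun _ => 1) (25 / 2)
    (by
      have h0 : (MvPolynomial.X (0 : Fin 2) : MvPolynomial (Fin 2) ℝ).IsHomogeneous 1 :=
        MvPolynomial.isHomogeneous_X ℝ 0
      have h1 : ((MvPolynomial.X (1 : Fin 2) : MvPolynomial (Fin 2) ℝ) ^ 25).IsHomogeneous 25 :=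
        MvPolynomial.isHomogeneous_X_pow 1 25
      exact h0.mul h1)
    (by simp)
    (by
      intro x z hz
      simp only [map_mul, map_pow, MvPolynomial.aeval_X, mul_eq_zero] at hz
      rcases hz with hz | hz
      · have := congrArg Complex.im hz
        simpa using this
      · have hz' := pow_eq_zero_iff (by norm_num : (25 : ℕ) ≠ 0) |>.mp hz
        have := congrArg Complex.im hz'
        simpa using this)
    (by norm_num) (by norm_num) (by norm_num)
    ![![0, 1 / 2], ![0, 1 / 2], ![1, 0]]
    (by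
      intro j t ht
      simp only [map_mul, map_pow, MvPolynomial.eval_X]
      fin_cases j
      · apply mul_ne_zero
        · simp; linarith
        · apply pow_ne_zero; simp; linarith
      · apply mul_ne_zero
        · simp; linarith
        · apply pow_ne_zero; simp; linarith
      · apply mul_ne_zero
        · simp; linarith
        · apply pow_ne_zero; simp; linarith)
    (by
      funext i
      fin_cases i <;> simp [Fin.sum_univ_three] <;> norm_num)
    (by
      intro j
      fin_cases j <;> simp [Fin.sum_univ_two, MvPolynomial.pderiv_X] <;> norm_num)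
    15
    (by
      simp [List.ofFn_succ, Fin.sum_univ_two, MvPolynomial.pderiv_X, Module.End.mul_apply,
        MvPolynomial.smul_eval, h24, h25]
      norm_num)
  obtain ⟨s, hs, h0⟩ := key
  rw [hfl] at h0
  simp [List.ofFn_succ, Fin.sum_univ_two, MvPolynomial.pderiv_X, Module.End.mul_apply,
        MvPolynomial.smul_eval, h24, h25] at h0
  have hs0 : (0 : ℝ) < s := by linarith
  have h1 : s ^ 23 * (s ^ 3 - 26 * s ^ 2 + 18125 / 104 * s - 46875 / 338) = 0 := by
    rw [← h0]; ring
  have h2 : 0 < s ^ 3 - 26 * s ^ 2 + 18125 / 104 * s - 46875 / 338 := by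
    obtain ⟨u, rfl⟩ : ∃ u, s = 15 + u := ⟨s - 15, by ring⟩
    have hu : 0 ≤ u := by linarith
    have : (15 + u) ^ 3 - 26 * (15 + u) ^ 2 + 18125 / 104 * (15 + u) - 46875 / 338
        = u ^ 3 + 19 * u ^ 2 + 7205 / 104 * u + 675 / 1352 := by ring
    rw [this]; positivity
  have h3 : 0 < s ^ 23 := pow_pos hs0 23
  exact absurd h1 (mul_pos h3 h2).ne'

end Pool.Agent.S08058
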