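import Pool.Statements.S08206
import Pool.Agent.Lib.MP_3b2b47_co.Main

set_option autoImplicit false
open Pool Pool.MP_3b2b47_co

namespace Pool.Agent.S08206

open Pool.Agent.Lib.MP_3b2b47_co in
/-- Counterexample: d = 3, C the regular octahedron, n = 6. The six translates with centres
plus or minus e_i form a totally separable packing with hull 2C of volume 32/3, while every
sausage of six translates has hull volume at least 34/3. -/
theorem result :
    ¬ (∀ d : ℕ, 3 ≤ d → ∀ C : Set (EuclideanSpace ℝ (Fin d)),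
    Convex ℝ C → IsCompact C → (interior C).Nonempty → (∀ v ∈ C, -v ∈ C) →
    ∀ n : ℕ, 1 < n →
    ∃ y : Fin n → EuclideanSpace ℝ (Fin d),
      Collinear ℝ (Set.range y) ∧
      (∀ i j : Fin n, i ≠ j → ∃ f : EuclideanSpace ℝ (Fin d) →L[ℝ] ℝ, ∃ c : ℝ, f ≠ 0 ∧
         (∀ v ∈ C, f (y i + v) ≤ c) ∧ (∀ v ∈ C, c ≤ f (y j + v)) ∧
         ∀ k : Fin n, (∀ v ∈ C, f (y k + v) ≤ c) ∨ (∀ v ∈ C, c ≤ f (y k + v))) ∧
      ∀ x : Fin n → EuclideanSpace ℝ (Fin d),
        (∀ i j : Fin n, i ≠ j → ∃ f : EuclideanSpace ℝ (Fin d) →L[ℝ] ℝ, ∃ c : ℝ, f ≠ 0 ∧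
           (∀ v ∈ C, f (x i + v) ≤ c) ∧ (∀ v ∈ C, c ≤ f (x j + v)) ∧
           ∀ k : Fin n, (∀ v ∈ C, f (x k + v) ≤ c) ∨ (∀ v ∈ C, c ≤ f (x k + v))) →
        MeasureTheory.volume (convexHull ℝ (⋃ i, (fun v => y i + v) '' C)) ≤
          MeasureTheory.volume (convexHull ℝ (⋃ i, (fun v => x i + v) '' C))) := by
  intro h
  obtain ⟨y, hc, hs, hmin⟩ := h 3 le_rfl (octE 1) (convex_octE 1) compact_octE interior_octE
    (fun v hv => by
      simpa only [octE, Set.mem_ofPred_eq, PiLp.neg_apply, abs_neg] using hv) 6 (by norm_num)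
  have h1 := sausage_vol y hc (fun i j hij => by
    obtain ⟨f, c, hf, ha, hb, -⟩ := hs i j hij
    exact sep_dist _ _ f c hf ha hb)
  have h2 := (h1.trans (hmin ctr cluster_sep)).trans cluster_vol
  rw [ENNReal.ofReal_le_ofReal_iff (by norm_num)] at h2
  norm_num at h2

end Pool.Agent.S08206
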