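import Pool.Statements.S08787
import Pool.Agent.Lib.MP_544a75_co.Maximal

set_option autoImplicit false
open Pool Pool.MP_544a75_co

namespace Pool.Agent.S08787

/-- For every 2-connected graph on vertices x_1..x_n and every c with 1 ≤ c ≤ n, suppose each pair i<j satisfies i+j<c, or x_i x_j is an edge, or d(x_i)>i, or d(x_j)≥j, or d(x_i)+d(x_j)≥c. Then G has a cycle of length at least c. -/
theorem result :
    ∀ (n : ℕ) (G : SimpleGraph (Fin n)) [DecidableRel G.Adj] (c : ℕ),
      1 ≤ c → c ≤ n → 3 ≤ n → G.Connected →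
      (∀ v : Fin n, (G.induce {w : Fin n | w ≠ v}).Connected) →
      (∀ i j : Fin n, i < j →
        (i.val + 1) + (j.val + 1) < c ∨ G.Adj i j ∨ i.val + 1 < G.degree i ∨
          j.val + 1 ≤ G.degree j ∨ c ≤ G.degree i + G.degree j) →
      ∃ (u : Fin n) (p : G.Walk u u), p.IsCycle ∧ c ≤ p.length := by
  intro n G _ c _ hcn h3 _ h2 hB
  by_contra hne
  push Not at hne
  have h3' : 3 ≤ Fintype.card (Fin n) := by simpa using h3
  by_cases hc : c ≤ 3
  · obtain ⟨S, -, hS, hR⟩ := Lib.MP_544a75_co.clique_cover h2 h3' (c := 3) le_rfl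
      (fun u p hp => lt_of_lt_of_le (hne u p hp) hc) (K := ∅) (by simp)
    rw [Finset.filter_false_of_mem fun u _ => by
      have := Lib.MP_544a75_co.two_le_degree h2 h3' u; omega] at hR
    have := Finset.card_add_card_compl S
    simp only [Finset.card_empty, Fintype.card_fin] at hR this
    omega
  · classical
    obtain ⟨H, hGH, hH, hmax⟩ := Lib.MP_544a75_co.exists_maximal (G := G) (c := c) hne
    refine Lib.MP_544a75_co.Ctx.elim (G := H) (ℓ := fun v => v.val + 1) (c := c)
      ⟨fun a b e => Fin.ext (by simpa using e), fun v => by omega, fun v => by simp,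
        by omega, by simpa using hcn, fun v => (h2 v).mono fun a b h => hGH h, hH, ?_⟩ hmax
      (Lib.MP_544a75_co.not_complete (by omega) hcn hH)
    intro x y h4 h5 h6 h7 h8
    have hx : G.degree x ≤ H.degree x := SimpleGraph.degree_le_of_le hGH
    have hy : G.degree y ≤ H.degree y := SimpleGraph.degree_le_of_le hGH
    rcases hB x y (by change x.val < y.val; omega) with h | h | h | h | h
    · omega
    · exact absurd (hGH h) h5
    · omega
    · omega
    · omega

end Pool.Agent.S08787
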