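import Pool.Statements.S08880
import Pool.Agent.Lib.MP_587a88_co.Main

set_option autoImplicit false
open Pointwise
open Pool Pool.MP_587a88_co

namespace Pool.Agent.S08880

/-- The negation of the preceding statement: In any nontrivial torsion-free group, for every finite S containing the identity and every k ≥ 1, some set A of exactly k elements minimizes ∣XS∣−∣X∣ over all finite sets X with at least k elements. -/
theorem result :
    ¬ (∀ (G : Type) [Group G] [DecidableEq G], Nontrivial G →
      (∀ g : G, g ≠ 1 → ¬ IsOfFinOrder g) →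
      ∀ (S : Finset G), (1 : G) ∈ S →
        ∀ k : ℕ, 1 ≤ k →
          ∃ A : Finset G, A.card = k ∧
            ∀ X : Finset G, k ≤ X.card →
              ((A * S).card : ℤ) - (A.card : ℤ) ≤ ((X * S).card : ℤ) - (X.card : ℤ)) := by
  intro h
  obtain ⟨S, hS, hA⟩ := Pool.Agent.Lib.MP_587a88_co.exists_set'
  obtain ⟨A, hc, hmin⟩ := h Pool.Agent.Lib.MP_587a88_co.PG inferInstance
    Pool.Agent.Lib.MP_587a88_co.torsionFree S hS 7 (by norm_num)
  have h1 := hmin Pool.Agent.Lib.MP_587a88_co.sX
    (by rw [Pool.Agent.Lib.MP_587a88_co.sX_card]; norm_num)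
  have h2 := hA A hc
  rw [Pool.Agent.Lib.MP_587a88_co.sX_card, hc] at h1
  omega

end Pool.Agent.S08880
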