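import Pool.Statements.S09197
import Pool.Agent.Lib.MP_63edde_co.Main

set_option autoImplicit false
open Pool Pool.MP_63edde_co

namespace Pool.Agent.S09197

/-- For every finite graph with 3·(min degree)+5 ≥ 2n and every 2-colouring of its edges, the vertices split into at most two disjoint sets, each connected in a single colour class. -/
theorem result :
    ∀ (V : Type) [Fintype V] [DecidableEq V] (G : SimpleGraph V) [DecidableRel G.Adj],
      2 * Fintype.card V ≤ 3 * G.minDegree + 5 →
      ∀ c : Sym2 V → Fin 2,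
        ∃ A B : Set V, Disjoint A B ∧ A ∪ B = Set.univ ∧
          (A = ∅ ∨ ∃ i : Fin 2, ((G.deleteEdges {e | c e ≠ i}).induce A).Connected) ∧
          (B = ∅ ∨ ∃ i : Fin 2, ((G.deleteEdges {e | c e ≠ i}).induce B).Connected) := by
  intro V _ _ G _ hd c
  obtain ⟨A, B, h1, h2, h3, h4⟩ := Pool.Agent.Lib.MP_63edde_co.main V G hd c
  refine ⟨A, B, h1, h2, ?_, ?_⟩
  · rcases h3 with h | h | h
    · exact Or.inl h
    · exact Or.inr ⟨0, h⟩
    · exact Or.inr ⟨1, h⟩
  · rcases h4 with h | h | h
    · exact Or.inl h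
    · exact Or.inr ⟨0, h⟩
    · exact Or.inr ⟨1, h⟩

end Pool.Agent.S09197
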