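import Pool.Statements.S09386
import Pool.Agent.Lib.MP_6e559c_co.Main

set_option autoImplicit false
open Pool Pool.MP_6e559c_co

namespace Pool.Agent.S09386

/-- The negation of the preceding statement: For any sequence of finite real-representable matroids, none having a minor isomorphic to U_{3,6}, some two distinct indices i ≠ j have the i-th matroid isomorphic to a minor of the j-th. Equivalently, this class has no infinite antichain under minors. -/
theorem result :
    ¬ (∀ M : ℕ → Matroid ℕ,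
      (∀ i, (M i).E.Finite ∧
        (∃ n : ℕ, ∃ v : ℕ → (Fin n → ℝ),
          ∀ I : Set ℕ, I ⊆ (M i).E → ((M i).Indep I ↔ LinearIndepOn ℝ v I)) ∧
        ¬ (∃ N : Matroid ℕ, N.IsMinor (M i) ∧ N.E.encard = 6 ∧
            ∀ I : Set ℕ, N.Indep I ↔ (I ⊆ N.E ∧ I.encard ≤ 3))) →
      ∃ i j : ℕ, i ≠ j ∧
        ∃ f : ℕ → ℕ, ∃ hf : Set.InjOn f (M i).E, ((M i).map f hf).IsMinor (M j)) := by
  intro h
  obtain ⟨i, j, hij, f, hf, hm⟩ := h (fun i => Pool.Agent.Lib.MP_6e559c_co.Mat (i + 3)) (fun i =>
    ⟨(Finset.range (3 * (i + 3))).finite_toSet,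
      Pool.Agent.Lib.MP_6e559c_co.representable (i + 3),
      Pool.Agent.Lib.MP_6e559c_co.no_U36 (i + 3)⟩)
  exact Pool.Agent.Lib.MP_6e559c_co.antichain (by omega) (by omega) (by omega) f hf hm

end Pool.Agent.S09386
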