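import Pool.Statements.S09857
import Pool.Agent.Lib.MP_853269_co.Main

set_option autoImplicit false
open Pool Pool.MP_853269_co

namespace Pool.Agent.S09857

/-- For every prime p and every set A of exactly p points in F_p^3, either A lies in some affine plane, or the lines through the origin spanned by differences of distinct points of A number at least p+1. -/
theorem result :
    ∀ (p : ℕ), p.Prime → ∀ (A : Finset (Fin 3 → ZMod p)), A.card = p →
      (∃ v : Fin 3 → ZMod p, v ≠ 0 ∧ ∃ c : ZMod p, ∀ a ∈ A, ∑ i, v i * a i = c) ∨
      p + 1 ≤ Set.ncard {W : Submodule (ZMod p) (Fin 3 → ZMod p) |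
        ∃ a ∈ A, ∃ b ∈ A, a ≠ b ∧ W = Submodule.span (ZMod p) {a - b}} := by
  intro p hp A hA
  rcases Pool.Agent.Lib.MP_853269_co.directions p hp A hA with h | h
  · exact Or.inl h
  · exact Or.inr (by omega)

end Pool.Agent.S09857
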