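import Pool.Statements.S10557
import Pool.Agent.Lib.MP_a4b0c4_co.JAll
import Pool.Agent.Lib.MP_a4b0c4_co.JEng6
import Pool.Agent.Lib.MP_a4b0c4_co.JPW3

set_option autoImplicit false
open Pool Pool.MP_a4b0c4_co

namespace Pool.Agent.S10557

/-- For each n ≥ 1 there is k such that every finite matroid of branch-width at least k has a minor isomorphic to U(n,2n), or to the cycle matroid, the bicircular matroid, or the dual bicircular matroid of the n by n grid. -/
theorem result :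
    ∀ n : ℕ, 1 ≤ n → ∃ k : ℕ, ∀ (α : Type) (M : Matroid α), M.E.Finite →
      (∀ (m : ℕ) (T : SimpleGraph (Fin m)) (φ : α → Fin m), T.IsTree →
        (∀ v, (T.neighborSet v).ncard ≤ 3) → Set.InjOn φ M.E →
        (∀ x ∈ M.E, (T.neighborSet (φ x)).ncard ≤ 1) →
        ∃ u v : Fin m, T.Adj u v ∧ ∃ I J : Set α,
          I ⊆ {x ∈ M.E | (T.deleteEdges {s(u, v)}).Reachable (φ x) u} ∧
          J ⊆ {x ∈ M.E | ¬ (T.deleteEdges {s(u, v)}).Reachable (φ x) u} ∧
          M.Indep I ∧ M.Indep J ∧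
          ∀ B ⊆ M.E, M.Indep B → k + B.ncard ≤ I.ncard + J.ncard + 1) →
      (∃ N : Matroid α, N.IsMinor M ∧ N.E.ncard = 2 * n ∧
          ∀ I ⊆ N.E, (N.Indep I ↔ I.ncard ≤ n)) ∨
      (∃ N : Matroid α, N.IsMinor M ∧
        ∃ f : (SimpleGraph.boxProd (SimpleGraph.pathGraph n) (SimpleGraph.pathGraph n)).edgeSet ≃ N.E,
          ∀ I : Set (SimpleGraph.boxProd (SimpleGraph.pathGraph n) (SimpleGraph.pathGraph n)).edgeSet,
            (N.Indep (Subtype.val '' (f '' I)) ↔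
              (SimpleGraph.fromEdgeSet (Subtype.val '' I) : SimpleGraph (Fin n × Fin n)).IsAcyclic)) ∨
      (∃ N : Matroid α, N.IsMinor M ∧
        ∃ f : (SimpleGraph.boxProd (SimpleGraph.pathGraph n) (SimpleGraph.pathGraph n)).edgeSet ≃ N.E,
          ∀ I : Set (SimpleGraph.boxProd (SimpleGraph.pathGraph n) (SimpleGraph.pathGraph n)).edgeSet,
            (N.Indep (Subtype.val '' (f '' I)) ↔
              ∀ J : Set (Sym2 (Fin n × Fin n)), J ⊆ Subtype.val '' I →
                J.ncard ≤ {w : Fin n × Fin n | ∃ e ∈ J, w ∈ e}.ncard)) ∨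
      (∃ N : Matroid α, N.IsMinor M ∧
        ∃ f : (SimpleGraph.boxProd (SimpleGraph.pathGraph n) (SimpleGraph.pathGraph n)).edgeSet ≃ N.E,
          ∀ I : Set (SimpleGraph.boxProd (SimpleGraph.pathGraph n) (SimpleGraph.pathGraph n)).edgeSet,
            (N.dual.Indep (Subtype.val '' (f '' I)) ↔
              ∀ J : Set (Sym2 (Fin n × Fin n)), J ⊆ Subtype.val '' I →
                J.ncard ≤ {w : Fin n × Fin n | ∃ e ∈ J, w ∈ e}.ncard)) := by
  have eng := Pool.Agent.Lib.MP_a4b0c4_co.J.engine Pool.Agent.Lib.MP_a4b0c4_co.J.limit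
    Pool.Agent.Lib.MP_a4b0c4_co.J.strip
  exact Pool.Agent.Lib.MP_a4b0c4_co.J.T.final
    (Pool.Agent.Lib.MP_a4b0c4_co.J.all_of eng (Pool.Agent.Lib.MP_a4b0c4_co.J.pw eng))

end Pool.Agent.S10557
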