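import Pool.Statements.S10656
import Pool.Agent.Lib.MP_a893c7_co.Sv.Bl
import Pool.Agent.Lib.MP_a893c7_co.Sv.Fin

set_option autoImplicit false
open Pool Pool.MP_a893c7_co

namespace Pool.Agent.S10656

/-- The negation of the preceding statement: For every n, the smallest family of subsets of an n-set such that every subset is the union of one or two members has exactly 2^floor(n/2) + 2^ceil(n/2) - 1 members. -/
theorem result :
    ¬ (∀ n : ℕ,
      IsLeast
        {k : ℕ | ∃ 𝓑 : Finset (Finset (Fin n)), 𝓑.card = k ∧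
          ∀ A : Finset (Fin n), ∃ B₁ ∈ 𝓑, ∃ B₂ ∈ 𝓑, A = B₁ ∪ B₂}
        (2 ^ (n / 2) + 2 ^ ((n + 1) / 2) - 1)) := by
  intro h
  obtain ⟨t, I, A, _, _, _, ω, R, N, hA, hI, hR, hN, hc⟩ :=
    Pool.Agent.Lib.MP_a893c7_co.Sv.block
  obtain ⟨n, B, hB, hcov⟩ := Pool.Agent.Lib.MP_a893c7_co.Sv.small_base t ω R N hA hI hR hN hc
  exact absurd ((h n).2 ⟨B, rfl, hcov⟩) (not_le.2 hB)

end Pool.Agent.S10656
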