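import Pool.Statements.S11647
import Pool.Agent.Lib.MP_d308c3_co.K.S.TT
import Pool.Agent.Lib.MP_d308c3_co.K.S.NG
import Pool.Agent.Lib.MP_d308c3_co.K.S.G3
import Pool.Agent.Lib.MP_d308c3_co.K.S.G1
import Pool.Agent.Lib.MP_d308c3_co.K.S.Step
import Pool.Agent.Lib.MP_d308c3_co.K.S.Mac
import Pool.Agent.Lib.MP_d308c3_co.K.S.Row
import Pool.Agent.Lib.MP_d308c3_co.K.S.Uniq
import Pool.Agent.Lib.MP_d308c3_co.K.S.Hnd
import Pool.Agent.Lib.MP_d308c3_co.K.S.Col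
import Pool.Agent.Lib.MP_d308c3_co.K.S.Tel
import Pool.Agent.Lib.MP_d308c3_co.K.S.ActT
import Pool.Agent.Lib.MP_d308c3_co.K.S.ActX
import Pool.Agent.Lib.MP_d308c3_co.K.S.Rect
import Pool.Agent.Lib.MP_d308c3_co.K.S.Path
import Pool.Agent.Lib.MP_d308c3_co.K.S.Loc
import Pool.Agent.Lib.MP_d308c3_co.K.S.LocG
import Pool.Agent.Lib.MP_d308c3_co.K.S.En
import Pool.Agent.Lib.MP_d308c3_co.K.S.Top

set_option autoImplicit false
open Pool Pool.MP_d308c3_co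

namespace Pool.Agent.S11647

/-- For every ε>0, the number of halving lines of n points in the plane with no three collinear is o(n^(1+ε)). Halving lines are lines through two of the points with exactly (n-2)/2 points strictly on each side. -/
theorem result :
    ∀ ε : ℝ, 0 < ε → ∀ δ : ℝ, 0 < δ → ∃ N : ℕ, ∀ S : Finset (ℝ × ℝ),
      N ≤ S.card →
      (∀ p ∈ S, ∀ q ∈ S, ∀ r ∈ S, p ≠ q → p ≠ r → q ≠ r →
        (q.1 - p.1) * (r.2 - p.2) - (q.2 - p.2) * (r.1 - p.1) ≠ 0) →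
      (((S ×ˢ S).filter (fun x => x.1 ≠ x.2 ∧
          (S.filter (fun r => 0 < (x.2.1 - x.1.1) * (r.2 - x.1.2)
              - (x.2.2 - x.1.2) * (r.1 - x.1.1))).card * 2 + 2 = S.card)).card : ℝ)
        ≤ δ * (S.card : ℝ) ^ (1 + ε) := by
  exact Lib.MP_d308c3_co.K.skel Lib.MP_d308c3_co.K.tt Lib.MP_d308c3_co.K.ng Lib.MP_d308c3_co.K.g3 Lib.MP_d308c3_co.K.g1
    Lib.MP_d308c3_co.K.step Lib.MP_d308c3_co.K.mac Lib.MP_d308c3_co.K.row Lib.MP_d308c3_co.K.uq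
    Lib.MP_d308c3_co.K.hnd Lib.MP_d308c3_co.K.col Lib.MP_d308c3_co.K.t1 Lib.MP_d308c3_co.K.t1b
    Lib.MP_d308c3_co.K.t2 Lib.MP_d308c3_co.K.aT Lib.MP_d308c3_co.K.aX Lib.MP_d308c3_co.K.rect
    Lib.MP_d308c3_co.K.path Lib.MP_d308c3_co.K.loc Lib.MP_d308c3_co.K.locG Lib.MP_d308c3_co.K.en
    Lib.MP_d308c3_co.K.top

end Pool.Agent.S11647
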