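import Pool.Statements.S11926
import Pool.Agent.Lib.MP_debb99_co.Main

set_option autoImplicit false
open Pool Pool.MP_debb99_co

namespace Pool.Agent.S11926

/-- The negation of the preceding statement: There is a constant C such that for every graph on n vertices and every D bounding each ball ratio (ball of radius r ≥ 1 has at most 2rD vertices), some vertex labeling by 0..n−1 stretches every edge by at most C·log n·D. -/
theorem result :
    ¬ (∃ C : ℝ, ∀ (n : ℕ) (G : SimpleGraph (Fin n)) (D : ℝ),
      (∀ (v : Fin n) (r : ℕ), 1 ≤ r →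
        ((({w | G.edist v w ≤ (r : ℕ∞)} : Set (Fin n)).ncard : ℕ) : ℝ) ≤ 2 * (r : ℝ) * D) →
      ∃ π : Fin n ≃ Fin n, ∀ u v : Fin n, G.Adj u v →
        |(((π u : Fin n) : ℕ) : ℝ) - (((π v : Fin n) : ℕ) : ℝ)| ≤ C * Real.log (n : ℝ) * D) := by
  exact Pool.Agent.Lib.MP_debb99_co.main

end Pool.Agent.S11926
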