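import Pool.Statements.S12027
import Pool.Agent.Lib.MP_e28b35_co.Link

set_option autoImplicit false
open Pool Pool.MP_e28b35_co

namespace Pool.Agent.S12027

/-- In 5x5x5 tic-tac-toe, where the first to fully occupy one of the cube's geometric lines wins, neither the first nor the second player has a legal strategy that guarantees completing a line before the opponent does; the game is a draw. -/
theorem result :
    (¬ ∃ σ : List (Fin 3 → Fin 5) → (Fin 3 → Fin 5),
      (∀ l : List (Fin 3 → Fin 5), l.Nodup → Even l.length → l.length < 125 → σ l ∉ l) ∧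
      ∀ p : ℕ → (Fin 3 → Fin 5),
        (∀ i j : ℕ, i < 125 → j < 125 → p i = p j → i = j) →
        (∀ k : ℕ, k < 125 → Even k → p k = σ ((List.range k).map p)) →
        ∃ t : ℕ, t < 125 ∧
          (∃ a : Fin 3 → Fin 5, ∃ s : Fin 3 → Fin 3, (∃ j, s j ≠ 0) ∧
            ∀ i : Fin 5, ∃ k : ℕ, k ≤ t ∧ Even k ∧
              p k = fun j => if s j = 0 then a j else if s j = 1 then i else i.rev) ∧
          ¬ (∃ a : Fin 3 → Fin 5, ∃ s : Fin 3 → Fin 3, (∃ j, s j ≠ 0) ∧
            ∀ i : Fin 5, ∃ k : ℕ, k ≤ t ∧ Odd k ∧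
              p k = fun j => if s j = 0 then a j else if s j = 1 then i else i.rev)) ∧
    (¬ ∃ σ : List (Fin 3 → Fin 5) → (Fin 3 → Fin 5),
      (∀ l : List (Fin 3 → Fin 5), l.Nodup → Odd l.length → l.length < 125 → σ l ∉ l) ∧
      ∀ p : ℕ → (Fin 3 → Fin 5),
        (∀ i j : ℕ, i < 125 → j < 125 → p i = p j → i = j) →
        (∀ k : ℕ, k < 125 → Odd k → p k = σ ((List.range k).map p)) →
        ∃ t : ℕ, t < 125 ∧
          (∃ a : Fin 3 → Fin 5, ∃ s : Fin 3 → Fin 3, (∃ j, s j ≠ 0) ∧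
            ∀ i : Fin 5, ∃ k : ℕ, k ≤ t ∧ Odd k ∧
              p k = fun j => if s j = 0 then a j else if s j = 1 then i else i.rev) ∧
          ¬ (∃ a : Fin 3 → Fin 5, ∃ s : Fin 3 → Fin 3, (∃ j, s j ≠ 0) ∧
            ∀ i : Fin 5, ∃ k : ℕ, k ≤ t ∧ Even k ∧
              p k = fun j => if s j = 0 then a j else if s j = 1 then i else i.rev)) := by
  constructor
  · rintro ⟨σ, hσ, h⟩
    obtain ⟨p, h1, h2, h3⟩ :=
      Pool.Agent.Lib.MP_e28b35_co.no_win 0 (by norm_num) Even (fun _ => Nat.even_iff) σ hσ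
    obtain ⟨t, ht, hw, -⟩ := h p h1 h2
    exact h3 t ht hw
  · rintro ⟨σ, hσ, h⟩
    obtain ⟨p, h1, h2, h3⟩ :=
      Pool.Agent.Lib.MP_e28b35_co.no_win 1 (by norm_num) Odd (fun _ => Nat.odd_iff) σ hσ
    obtain ⟨t, ht, hw, -⟩ := h p h1 h2
    exact h3 t ht hw

end Pool.Agent.S12027
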