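import Pool.Statements.S12088
import Pool.Agent.Lib.MP_e4c5f9_co.Main

set_option autoImplicit false
open Pool Pool.MP_e4c5f9_co

namespace Pool.Agent.S12088

/-- The negation of the preceding statement: For every finite graph with no isolated vertices whose maximal independent sets all have size n/2, the counts s_k of independent sets of size k satisfy s_{k-1}·s_{k+1} ≤ s_k² for all k ≥ 1. -/
theorem result :
    ¬ (∀ (V : Type) [Fintype V] (G : SimpleGraph V),
      (∀ v : V, ∃ w : V, G.Adj v w) →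
      (∀ s t : Finset V,
        (G.IsIndepSet (s : Set V) ∧ ∀ v : V, v ∉ s → ¬ G.IsIndepSet (insert v (s : Set V))) →
        (G.IsIndepSet (t : Set V) ∧ ∀ v : V, v ∉ t → ¬ G.IsIndepSet (insert v (t : Set V))) →
        s.card = t.card) →
      (∃ s : Finset V, G.IsIndepSet (s : Set V) ∧
        (∀ v : V, v ∉ s → ¬ G.IsIndepSet (insert v (s : Set V))) ∧
        2 * s.card = Fintype.card V) →
      ∀ k : ℕ, 1 ≤ k →
        {s : Finset V | G.IsIndepSet (s : Set V) ∧ s.card = k - 1}.ncard *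
          {s : Finset V | G.IsIndepSet (s : Set V) ∧ s.card = k + 1}.ncard ≤
          {s : Finset V | G.IsIndepSet (s : Set V) ∧ s.card = k}.ncard ^ 2) := by
  intro h
  have key := h (Pool.Agent.Lib.MP_e4c5f9_co.V 91 176) (Pool.Agent.Lib.MP_e4c5f9_co.G 91 176)
    Pool.Agent.Lib.MP_e4c5f9_co.no_isolated
    (fun s t hs ht => by
      rw [Pool.Agent.Lib.MP_e4c5f9_co.card_maximal s hs.1 hs.2,
        Pool.Agent.Lib.MP_e4c5f9_co.card_maximal t ht.1 ht.2])
    ⟨Pool.Agent.Lib.MP_e4c5f9_co.yset 91 176, Pool.Agent.Lib.MP_e4c5f9_co.yset_indep,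
      Pool.Agent.Lib.MP_e4c5f9_co.yset_max, by
        rw [Pool.Agent.Lib.MP_e4c5f9_co.card_maximal _ Pool.Agent.Lib.MP_e4c5f9_co.yset_indep
          Pool.Agent.Lib.MP_e4c5f9_co.yset_max, Pool.Agent.Lib.MP_e4c5f9_co.card_V]⟩
    433 (by norm_num)
  have h1 := Pool.Agent.Lib.MP_e4c5f9_co.dip_left
  have h2 := Pool.Agent.Lib.MP_e4c5f9_co.dip_right
  have key' : Pool.Agent.Lib.MP_e4c5f9_co.N 91 176 432 * Pool.Agent.Lib.MP_e4c5f9_co.N 91 176 434 ≤
      Pool.Agent.Lib.MP_e4c5f9_co.N 91 176 433 ^ 2 := key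
  have h3 := Nat.mul_lt_mul'' h1 h2
  rw [pow_two] at key'
  omega

end Pool.Agent.S12088
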