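import Pool.Statements.S12254
import Pool.Agent.Lib.MP_ec92e0_co.Main

set_option autoImplicit false
open Pool Pool.MP_ec92e0_co

namespace Pool.Agent.S12254

/-- The negation of the preceding statement: For every finite graph H with at least one edge, the minimum edge count of an H-saturated graph on n vertices (H-free, but adding any missing edge creates a copy of H), divided by n, converges to a real limit. -/
theorem result :
    ¬ (∀ (m : ℕ) (H : SimpleGraph (Fin m)), H.edgeSet.Nonempty →
      ∃ L : ℝ, Filter.Tendsto
        (fun n : ℕ => ((sInf {k : ℕ | ∃ G : SimpleGraph (Fin n),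
            (¬ ∃ f : Fin m → Fin n, Function.Injective f ∧
                ∀ a b : Fin m, H.Adj a b → G.Adj (f a) (f b)) ∧
            (∀ u v : Fin n, u ≠ v → ¬ G.Adj u v →
              ∃ f : Fin m → Fin n, Function.Injective f ∧
                ∀ a b : Fin m, H.Adj a b →
                  (G.Adj (f a) (f b) ∨ (f a = u ∧ f b = v) ∨ (f a = v ∧ f b = u))) ∧
            G.edgeSet.ncard = k} : ℕ) : ℝ) / (n : ℝ))
        Filter.atTop (nhds L)) := by
  exact Pool.Agent.Lib.MP_ec92e0_co.main

end Pool.Agent.S12254
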