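import Pool.Statements.S12300
import Pool.Agent.Lib.MP_ef4e97_co.Dis9

set_option autoImplicit false
open Pool Pool.MP_ef4e97_co

namespace Pool.Agent.S12300

/-- The negation of the preceding statement: For every ε>0, every large enough finite set of N reals is covered by at most (1+ε)√N sets S, each Sidon: a+b=c+d within S forces {a,b}={c,d}. -/
theorem result :
    ¬ (∀ ε : ℝ, 0 < ε → ∃ N₀ : ℕ, ∀ A : Finset ℝ, N₀ ≤ A.card →
      ∃ k : ℕ, (k : ℝ) ≤ (1 + ε) * Real.sqrt (A.card : ℝ) ∧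
        ∃ S : Fin k → Finset ℝ,
          (∀ i, ∀ a ∈ S i, ∀ b ∈ S i, ∀ c ∈ S i, ∀ d ∈ S i,
              a + b = c + d → (a = c ∧ b = d) ∨ (a = d ∧ b = c)) ∧
          ∀ x ∈ A, ∃ i, x ∈ S i) := by
  intro h
  obtain ⟨N₀, hN⟩ := h (1 / 20) (by norm_num)
  obtain ⟨M, hM1, hM2⟩ : ∃ M : ℕ, 10 ^ 12 ≤ M ∧ N₀ ≤ M :=
    ⟨max (10 ^ 12) N₀, le_max_left _ _, le_max_right _ _⟩
  obtain ⟨A, hA1, -, hA3⟩ := Pool.Agent.Lib.SidonDis.exists_bad_set M hM1
  have hinj : Function.Injective (fun a : ℤ => (a : ℝ)) := Int.cast_injective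
  have hc : (A.image (fun a : ℤ => (a : ℝ))).card = A.card :=
    Finset.card_image_of_injective _ hinj
  have hMM : M ≤ M ^ 120 := Nat.le_self_pow (by norm_num) M
  obtain ⟨k, hk, S, hS, hcov⟩ := hN (A.image (fun a : ℤ => (a : ℝ))) (by rw [hc]; omega)
  rw [hc] at hk
  have h1 : ∀ i, (A.filter (fun a : ℤ => (a : ℝ) ∈ S i)).card ≤ 20 * M ^ 60 := by
    intro i
    refine (hA3 _ (Finset.filter_subset _ _) ?_).le
    intro a ha b hb c hc d hd e
    have := hS i a (Finset.mem_filter.1 ha).2 b (Finset.mem_filter.1 hb).2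
      c (Finset.mem_filter.1 hc).2 d (Finset.mem_filter.1 hd).2 (by exact_mod_cast e)
    exact_mod_cast this
  have h2 : A ⊆ Finset.univ.biUnion (fun i => A.filter (fun a : ℤ => (a : ℝ) ∈ S i)) := by
    intro a ha
    obtain ⟨i, hi⟩ := hcov a (Finset.mem_image.2 ⟨a, ha, rfl⟩)
    exact Finset.mem_biUnion.2 ⟨i, Finset.mem_univ _, Finset.mem_filter.2 ⟨ha, hi⟩⟩
  have h3 := (Finset.card_le_card h2).trans
    (Finset.card_biUnion_le_card_mul _ _ _ fun i _ => h1 i)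
  rw [Finset.card_univ, Fintype.card_fin] at h3
  have h4 : (A.card : ℝ) ≤ k * (20 * (M : ℝ) ^ 60) := by exact_mod_cast h3
  have h5 : 450 * (M : ℝ) ^ 120 ≤ A.card := by exact_mod_cast hA1
  have hM0 : (0 : ℝ) < M := by exact_mod_cast (by omega : 0 < M)
  have hy : (0 : ℝ) < (M : ℝ) ^ 60 := by positivity
  have e : (M : ℝ) ^ 120 = (M : ℝ) ^ 60 * (M : ℝ) ^ 60 := by ring
  rw [e] at h5
  generalize (M : ℝ) ^ 60 = y at h4 h5 hy
  have h6 := Real.mul_self_sqrt (Nat.cast_nonneg (α := ℝ) A.card)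
  have h7 : 0 < Real.sqrt (A.card : ℝ) := Real.sqrt_pos.2 (by nlinarith)
  generalize Real.sqrt (A.card : ℝ) = s at hk h6 h7
  have h8 : s * s ≤ s * (21 * y) := by nlinarith
  have h9 : s ≤ 21 * y := le_of_mul_le_mul_left h8 h7
  nlinarith

end Pool.Agent.S12300
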