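import Pool.Statements.S12385
import Pool.Agent.Lib.MP_f2fe2b_co.Comb2

set_option autoImplicit false
open Pool Pool.MP_f2fe2b_co

namespace Pool.Agent.S12385

/-- For all 1 ≤ k ≤ n, the even binary tree with n leaves (child leaf-counts differ by at most 1 at every vertex) has at least as many leaf subsets inducing the even tree with k leaves as any rooted binary tree with n leaves. -/
theorem result :
    ∀ k n : ℕ, 1 ≤ k → k ≤ n →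
    ∀ (F : Finset (Finset (Fin k))) (E T : Finset (Finset (Fin n))),
      ((∀ A ∈ F, A.Nonempty) ∧ (Finset.univ ∈ F) ∧ (∀ i : Fin k, ({i} : Finset (Fin k)) ∈ F) ∧
        (∀ A ∈ F, ∀ B ∈ F, A ⊆ B ∨ B ⊆ A ∨ Disjoint A B) ∧
        (∀ A ∈ F, 2 ≤ A.card → ∃ B ∈ F, ∃ D ∈ F, Disjoint B D ∧ B ∪ D = A) ∧
        (∀ A ∈ F, ∀ B ∈ F, B ⊂ A → (∀ D ∈ F, B ⊆ D → D ⊆ A → D = B ∨ D = A) →
          A.card ≤ 2 * B.card + 1 ∧ 2 * B.card ≤ A.card + 1)) →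
      ((∀ A ∈ E, A.Nonempty) ∧ (Finset.univ ∈ E) ∧ (∀ i : Fin n, ({i} : Finset (Fin n)) ∈ E) ∧
        (∀ A ∈ E, ∀ B ∈ E, A ⊆ B ∨ B ⊆ A ∨ Disjoint A B) ∧
        (∀ A ∈ E, 2 ≤ A.card → ∃ B ∈ E, ∃ D ∈ E, Disjoint B D ∧ B ∪ D = A) ∧
        (∀ A ∈ E, ∀ B ∈ E, B ⊂ A → (∀ D ∈ E, B ⊆ D → D ⊆ A → D = B ∨ D = A) →
          A.card ≤ 2 * B.card + 1 ∧ 2 * B.card ≤ A.card + 1)) →
      ((∀ A ∈ T, A.Nonempty) ∧ (Finset.univ ∈ T) ∧ (∀ i : Fin n, ({i} : Finset (Fin n)) ∈ T) ∧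
        (∀ A ∈ T, ∀ B ∈ T, A ⊆ B ∨ B ⊆ A ∨ Disjoint A B) ∧
        (∀ A ∈ T, 2 ≤ A.card → ∃ B ∈ T, ∃ D ∈ T, Disjoint B D ∧ B ∪ D = A)) →
      {L : Finset (Fin n) | ∃ f : Fin k → Fin n, Function.Injective f ∧
          Finset.univ.image f = L ∧
          ∀ B : Finset (Fin k), B ∈ F ↔ (B.Nonempty ∧ ∃ A ∈ T, B.image f = A ∩ L)}.ncard
        ≤
      {L : Finset (Fin n) | ∃ f : Fin k → Fin n, Function.Injective f ∧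
          Finset.univ.image f = L ∧
          ∀ B : Finset (Fin k), B ∈ F ↔ (B.Nonempty ∧ ∃ A ∈ E, B.image f = A ∩ L)}.ncard := by
  rintro k n hk - F E T ⟨f1, f2, -, f4, f5, f6⟩ ⟨e1, e2, -, e4, e5, e6⟩ ⟨t1, t2, -, t4, t5⟩
  have hF : Pool.Agent.Lib.MP_f2fe2b_co.Hier F := ⟨f1, f4, f5⟩
  have hE : Pool.Agent.Lib.MP_f2fe2b_co.Hier E := ⟨e1, e4, e5⟩
  have hT : Pool.Agent.Lib.MP_f2fe2b_co.Hier T := ⟨t1, t4, t5⟩
  have a1 := Pool.Agent.Lib.MP_f2fe2b_co.ncard_eq_cnt hk hF (hF.evenH f6) f2 hT t2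
  have a2 := Pool.Agent.Lib.MP_f2fe2b_co.ncard_eq_cnt hk hF (hF.evenH f6) f2 hE e2
  have a3 := hT.cnt_le n Finset.univ t2 (by simp) k
  have a4 := hE.cnt_eq (hE.evenH e6) n Finset.univ e2 (by simp)
  rw [← a4, ← a1, ← a2] at a3
  exact_mod_cast a3

end Pool.Agent.S12385
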