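import Pool.Statements.S12946
import Pool.Agent.Lib.MP_2beacb_gt.Core
import Pool.Agent.Lib.MP_2beacb_gt.Irr

set_option autoImplicit false
open Pool Pool.MP_2beacb_gt

namespace Pool.Agent.S12946

/-- No Tychonoff continuous image of the irrationals contains a homeomorphic copy of the space of
continuous real functions on the irrationals with the pointwise convergence topology. -/
theorem result :
    ¬ (∃ (Y : Type) (_ : TopologicalSpace Y), T35Space Y ∧
      (∃ g : {x : ℝ // Irrational x} → Y, Continuous g ∧ Function.Surjective g) ∧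
      ∃ e : {f : {x : ℝ // Irrational x} → ℝ // Continuous f} → Y,
        Topology.IsEmbedding e) := by
  rintro ⟨Y, _, hT, ⟨g, hg, hgs⟩, e, he⟩
  obtain ⟨u, hu, hus⟩ := Pool.Agent.Lib.MP_2beacb_gt.exists_onto_irr
  obtain ⟨r, hr, hrs⟩ := Pool.Agent.Lib.MP_2beacb_gt.exists_from_irr
  let b : Bool → ℝ := fun t => cond t 1 0
  have hb : Topology.IsEmbedding b := by
    refine (Continuous.isClosedEmbedding continuous_of_discreteTopology ?_).isEmbedding
    intro s t hst
    cases s <;> cases t <;> simp_all [b]
  let j : Pool.Agent.Lib.MP_2beacb_gt.E →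
      {f : {x : ℝ // Irrational x} → ℝ // Continuous f} :=
    fun f => ⟨fun x => b (f.1 (r x)), hb.continuous.comp (f.2.comp hr)⟩
  have hj : Topology.IsInducing j := by
    rw [Topology.isInducing_iff_nhds]
    intro f
    apply le_antisymm
    · rw [← Filter.map_le_iff_le_comap]
      refine Continuous.tendsto ?_ f
      refine Continuous.subtype_mk (continuous_pi fun x => ?_) _
      have h1 : Continuous fun f : Pool.Agent.Lib.MP_2beacb_gt.E => f.1 (r x) :=
        (continuous_apply (r x)).comp continuous_subtype_val
      exact hb.continuous.comp h1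
    · refine (Filter.tendsto_id'.1 ?_)
      rw [tendsto_subtype_rng, tendsto_pi_nhds]
      intro y
      obtain ⟨x, rfl⟩ := hrs y
      rw [hb.tendsto_nhds_iff]
      have h1 : Continuous fun f : {f : {x : ℝ // Irrational x} → ℝ // Continuous f} => f.1 x :=
        (continuous_apply x).comp continuous_subtype_val
      exact (h1.tendsto (j f)).comp Filter.tendsto_comap
  exact Pool.Agent.Lib.MP_2beacb_gt.core (g ∘ u) (e ∘ j) (hg.comp hu) (hgs.comp hus)
    (he.isInducing.comp hj)

end Pool.Agent.S12946
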