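import Pool.Statements.S13935
import Pool.Agent.Lib.MP_c8c16f_gt.Main

set_option autoImplicit false
open Pool Pool.MP_c8c16f_gt

namespace Pool.Agent.S13935

/-- For every immersive orthogonal projection f of the Veronese surface into 4-space there are tight (two-piece) locally injective maps of ℝP², each linear on the simplices of a finite triangulation, converging uniformly to f. -/
theorem result :
  ∀ (u : Fin 4 → Fin 6 → ℝ),
    (∀ i j, ∑ k, u i k * u j k = if i = j then (1 : ℝ) else 0) →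
    (∀ i, u i 0 + u i 1 + u i 2 = 0) →
    ∀ F : (Fin 3 → ℝ) → (Fin 4 → ℝ),
    F = (fun x i => ∑ k : Fin 6, u i k *
          (![x 0 ^ 2, x 1 ^ 2, x 2 ^ 2, Real.sqrt 2 * x 0 * x 1,
             Real.sqrt 2 * x 0 * x 2, Real.sqrt 2 * x 1 * x 2] : Fin 6 → ℝ) k) →
    (∀ x : Fin 3 → ℝ, ∑ j, x j ^ 2 = 1 → ∀ w : Fin 3 → ℝ,
        ∑ j, x j * w j = 0 → fderiv ℝ F x w = 0 → w = 0) →
    ∃ g : ℕ → Quot (fun x y : {x : Fin 3 → ℝ // ∑ j, x j ^ 2 = 1} =>
              x.1 = y.1 ∨ x.1 = -y.1) → (Fin 4 → ℝ),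
      (∀ n, Continuous (g n) ∧
        (∃ (m : ℕ) (K : Geometry.SimplicialComplex ℝ (Fin m → ℝ))
            (h : K.space ≃ₜ Quot (fun x y : {x : Fin 3 → ℝ // ∑ j, x j ^ 2 = 1} =>
              x.1 = y.1 ∨ x.1 = -y.1)),
          K.faces.Finite ∧
          ∀ s ∈ K.faces, ∃ A : (Fin m → ℝ) →ᵃ[ℝ] (Fin 4 → ℝ),
            ∀ (y : Fin m → ℝ) (hy : y ∈ K.space),
              y ∈ convexHull ℝ (s : Set (Fin m → ℝ)) → g n (h ⟨y, hy⟩) = A y) ∧
        (∀ p, ∃ U ∈ nhds p, Set.InjOn (g n) U) ∧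
        (∀ (a : Fin 4 → ℝ) (c : ℝ),
          IsPreconnected (g n ⁻¹' {z | ∑ i, a i * z i ≤ c}))) ∧
      TendstoUniformly
        (fun n (x : {x : Fin 3 → ℝ // ∑ j, x j ^ 2 = 1}) => g n (Quot.mk _ x))
        (fun x => F x.1) Filter.atTop := by
  intro u h1 h2 F hF h3
  have e : F = fun x => Pool.Agent.Lib.MP_c8c16f_gt.proj u (Pool.Agent.Lib.MP_c8c16f_gt.sym x x) := by
    rw [hF]
    funext x i
    show _ = ∑ k : Fin 6, u i k * Pool.Agent.Lib.MP_c8c16f_gt.sym x x k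
    apply Finset.sum_congr rfl
    intro k _
    congr 1
    fin_cases k <;> simp [Pool.Agent.Lib.MP_c8c16f_gt.sym] <;> ring
  subst e
  obtain ⟨M⟩ := Pool.Agent.Lib.MP_c8c16f_gt.exists_model u h1 h2 h3
  choose g hg using fun n : ℕ =>
    Pool.Agent.Lib.MP_c8c16f_gt.step M (ε := 1 / ((n : ℝ) + 1)) (by positivity)
  refine ⟨g, fun n => (hg n).1, ?_⟩
  rw [Metric.tendstoUniformly_iff]
  intro ε hε
  have := (tendsto_one_div_add_atTop_nhds_zero_nat (𝕜 := ℝ)).eventually (gt_mem_nhds hε)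
  filter_upwards [this] with n hn x
  rw [dist_comm, dist_eq_norm]
  exact ((hg n).2 x).trans_lt hn

end Pool.Agent.S13935
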