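import Pool.Statements.S14001
import Pool.Agent.Lib.MP_d32f96_gt.All

set_option autoImplicit false
open Pool Pool.MP_d32f96_gt

namespace Pool.Agent.S14001

/-- For every integer k, the space of commuting pairs of plane homeomorphisms isotopic to the identity, whose isotopy-commutator loop has winding number k (Euler number k), is connected in the compact-open topology. -/
theorem result :
    ∀ k : ℤ, IsPreconnected
      {p : C(ℂ, ℂ) × C(ℂ, ℂ) |
        (∀ x : ℂ, p.1 (p.2 x) = p.2 (p.1 x)) ∧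
        ∃ F Fi G Gi : C(ℝ × ℂ, ℂ),
          (∀ t ∈ Set.Icc (0:ℝ) 1, ∀ x : ℂ,
            F (t, Fi (t, x)) = x ∧ Fi (t, F (t, x)) = x ∧
            G (t, Gi (t, x)) = x ∧ Gi (t, G (t, x)) = x) ∧
          (∀ x : ℂ, F (0, x) = x ∧ G (0, x) = x ∧
            F (1, x) = p.1 x ∧ G (1, x) = p.2 x) ∧
          ∃ θ : C(ℝ, ℝ), θ 1 - θ 0 = (k : ℝ) ∧
            ∀ t ∈ Set.Icc (0:ℝ) 1,
              F (t, G (t, Fi (t, Gi (t, 1)))) - F (t, G (t, Fi (t, Gi (t, 0)))) =
                ((‖F (t, G (t, Fi (t, Gi (t, 1)))) - F (t, G (t, Fi (t, Gi (t, 0))))‖ : ℝ) : ℂ)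
                  * Complex.exp (2 * (Real.pi : ℂ) * Complex.I * ((θ t : ℝ) : ℂ))} :=
  fun k => Pool.Agent.Lib.MP_d32f96_gt.froz_preconnected k

end Pool.Agent.S14001
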