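import Pool.Statements.S14375
import Pool.Agent.Lib.MP_0e8720_lc.Full.Core

set_option autoImplicit false
open Pool Pool.MP_0e8720_lc

namespace Pool.Agent.S14375

open Pool.Agent.Lib.MP_0e8720_lc.Full in
lemma load_eq {n : ℕ} (F : List (Task n) → Fin n) (σ : List (Task n)) (j : Fin n) :
    ∑ i ∈ Finset.univ.filter (fun i : Fin σ.length => F (σ.take (i.1 + 1)).reverse = j),
      (σ.get i).1 = rload F id j σ.reverse := by
  have key : ∀ k, k ≤ σ.length →
      ∑ i ∈ Finset.range k, (if F (σ.take (i + 1)).reverse = j then (σ.getD i (0, ∅)).1 else 0) =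
        rload F id j (σ.take k).reverse := by
    intro k
    induction k with
    | zero => intro _; simp [rload]
    | succ k ih =>
      intro hk
      have hk' : k < σ.length := hk
      have e : (σ.take (k + 1)).reverse = σ[k] :: (σ.take k).reverse := by
        rw [List.take_succ_eq_append_getElem hk', List.reverse_append]
        rfl
      rw [Finset.sum_range_succ, ih hk'.le, e, rload, List.getD_eq_getElem _ _ hk', add_comm]
      rfl
  have h := key σ.length le_rfl
  rw [List.take_length] at h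
  rw [← h, Finset.sum_filter, ← Fin.sum_univ_eq_sum_range
    (fun i => if F (σ.take (i + 1)).reverse = j then (σ.getD i (0, ∅)).1 else 0)]
  refine Finset.sum_congr rfl fun i _ => ?_
  rw [List.getD_eq_getElem _ _ i.2]
  rfl

/-- Some constant C exists such that for every n there is a randomized online algorithm for restricted assignment on n machines. On any sequence of positive-weight tasks, its expected maximum load is at most (ln n + C) times the maximum load of any feasible offline assignment. -/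
theorem result :
    ∃ C : ℝ, ∀ n : ℕ, 1 ≤ n →
      ∃ (Ω : Type) (_ : MeasurableSpace Ω) (μ : MeasureTheory.Measure Ω)
        (_ : MeasureTheory.IsProbabilityMeasure μ)
        (A : Ω → List (ℝ × Finset (Fin n)) → Fin n),
        (∀ (ω : Ω) (l : List (ℝ × Finset (Fin n))) (t : ℝ × Finset (Fin n)),
            t.2.Nonempty → A ω (l ++ [t]) ∈ t.2) ∧
        (∀ l : List (ℝ × Finset (Fin n)), Measurable (fun ω => A ω l)) ∧
        ∀ σ : List (ℝ × Finset (Fin n)),
          (∀ t ∈ σ, 0 < t.1 ∧ t.2.Nonempty) →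
          ∀ f : Fin σ.length → Fin n, (∀ i, f i ∈ (σ.get i).2) →
            ∫ ω, (⨆ j : Fin n,
                ∑ i ∈ Finset.univ.filter
                    (fun i : Fin σ.length => A ω (σ.take (i.1 + 1)) = j),
                  (σ.get i).1) ∂μ
              ≤ (Real.log n + C) *
                ⨆ j : Fin n,
                  ∑ i ∈ Finset.univ.filter (fun i : Fin σ.length => f i = j),
                    (σ.get i).1 := by
  open Pool.Agent.Lib.MP_0e8720_lc.Full MeasureTheory in
  refine ⟨CC, fun n hn => ?_⟩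
  obtain ⟨Ω, mΩ, μ, hμ, F, hF1, hF2, hF3⟩ := Pool.Agent.Lib.MP_0e8720_lc.Full.core n hn
  have _ : Nonempty (Fin n) := ⟨⟨0, hn⟩⟩
  refine ⟨Ω, mΩ, μ, hμ, fun ω l => F ω l.reverse, ?_, fun l => hF2 _, ?_⟩
  · intro ω l t ht
    simp only [List.reverse_append, List.reverse_singleton, List.singleton_append]
    exact hF1 ω t _ ht
  intro σ hσ f hf
  have hpos : ∀ i : Fin σ.length, 0 < (σ.get i).1 := fun i => (hσ _ (List.get_mem σ i)).1
  rcases Nat.eq_zero_or_pos σ.length with h0 | h0
  · have : IsEmpty (Fin σ.length) := ⟨fun i => absurd i.2 (by omega)⟩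
    simp
  obtain ⟨O, hO⟩ : ∃ O : ℝ, O = ⨆ j : Fin n,
      ∑ i ∈ Finset.univ.filter (fun i : Fin σ.length => f i = j), (σ.get i).1 := ⟨_, rfl⟩
  rw [← hO]
  have hle : ∀ j, ∑ i ∈ Finset.univ.filter (fun i : Fin σ.length => f i = j), (σ.get i).1 ≤ O := by
    intro j
    rw [hO]
    exact le_ciSup (f := fun j => ∑ i ∈ Finset.univ.filter (fun i : Fin σ.length => f i = j),
      (σ.get i).1) (Finite.bddAbove_range _) j
  have hO0 : 0 < O := by
    refine lt_of_lt_of_le ?_ (hle (f ⟨0, h0⟩))
    exact Finset.sum_pos (fun i _ => hpos i) ⟨⟨0, h0⟩, by simp⟩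
  have hH := hF3 (List.ofFn fun i => (σ.get i, f i)).reverse O hO0 (by
    intro p hp
    rw [List.mem_reverse, List.mem_ofFn] at hp
    obtain ⟨i, rfl⟩ := hp
    exact ⟨hpos i, hf i⟩) (by
    intro j
    refine le_trans (le_of_eq ?_) (hle j)
    unfold Pool.Agent.Lib.MP_0e8720_lc.Full.ol
    rw [List.map_reverse, List.sum_reverse, List.map_ofFn, List.sum_ofFn, Finset.sum_filter]
    rfl)
  have e : (List.ofFn fun i => (σ.get i, f i)).reverse.map Prod.fst = σ.reverse := by
    rw [List.map_reverse, List.map_ofFn]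
    congr 1
    exact List.ofFn_get σ
  rw [e] at hH
  have hnn : ∀ ω, 0 ≤ ⨆ j : Fin n, ∑ i ∈ Finset.univ.filter
      (fun i : Fin σ.length => F ω (σ.take (i.1 + 1)).reverse = j), (σ.get i).1 := fun ω =>
    Real.iSup_nonneg fun j => Finset.sum_nonneg fun i _ => (hpos i).le
  have hC : 0 ≤ (Real.log n + Pool.Agent.Lib.MP_0e8720_lc.Full.CC) * O := by
    have h1 : 0 ≤ Real.log n := Real.log_nonneg (by exact_mod_cast hn)
    unfold Pool.Agent.Lib.MP_0e8720_lc.Full.CC
    positivity
  have h2 := MeasureTheory.enorm_integral_le_lintegral_enorm (μ := μ) (fun ω => ⨆ j : Fin n,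
    ∑ i ∈ Finset.univ.filter
      (fun i : Fin σ.length => F ω (σ.take (i.1 + 1)).reverse = j), (σ.get i).1)
  rw [Real.enorm_eq_ofReal (MeasureTheory.integral_nonneg hnn)] at h2
  simp only [Real.enorm_eq_ofReal (hnn _)] at h2
  refine (ENNReal.ofReal_le_ofReal_iff hC).1 (h2.trans (le_trans (le_of_eq ?_) hH))
  simp only [load_eq]

end Pool.Agent.S14375
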