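import Pool.Statements.S15401
import Pool.Agent.Lib.MP_d33a1c_lc.Fusion

set_option autoImplicit false
open Filter Topology
open Pool Pool.MP_d33a1c_lc

namespace Pool.Agent.S15401

/-- For every Polish space X, every proper ideal on ω containing all finite sets that is Π^0_3 in Cantor space, and every sequence in X, the set of limits of subsequences indexed by sets outside the ideal is F_σ. -/
theorem result :
    ∀ (X : Type) [TopologicalSpace X] [PolishSpace X] (I : Set (Set ℕ)),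
      (∀ A ∈ I, ∀ B : Set ℕ, B ⊆ A → B ∈ I) →
      (∀ A ∈ I, ∀ B ∈ I, A ∪ B ∈ I) →
      (∀ A : Set ℕ, A.Finite → A ∈ I) →
      (Set.univ : Set ℕ) ∉ I →
      (∃ C : ℕ → ℕ → Set (ℕ → Bool), (∀ i j, IsClosed (C i j)) ∧
        {f : ℕ → Bool | {n : ℕ | f n = true} ∈ I} = ⋂ i, ⋃ j, C i j) →
      ∀ x : ℕ → X, ∃ D : ℕ → Set X, (∀ j, IsClosed (D j)) ∧
        {ℓ : X | ∃ A : Set ℕ, A ∉ I ∧ Tendsto x (atTop ⊓ 𝓟 A) (𝓝 ℓ)} = ⋃ j, D j := by
  intro X _ _ I hsub hun _ _ hC x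
  obtain ⟨C, hC, hI⟩ := hC
  exact Pool.Agent.Lib.MP_d33a1c_lc.limit_points_fsigma X I hsub hun C hC hI x

end Pool.Agent.S15401
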