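import Pool.Statements.S15456
import Pool.Agent.Lib.MP_da0a56_lc.NegMain

set_option autoImplicit false
open Pool Pool.MP_da0a56_lc

namespace Pool.Agent.S15456

/-- The negation of the preceding statement: There is a polynomial bound c·n^k+c such that, for every n, some adaptive strategy of that many rank queries correctly decides, for every matroid on n elements, whether it is representable over both GF(3) and GF(4). -/
theorem result :
    ¬ (∃ c k : ℕ, ∀ n : ℕ, ∃ q : List ℕ∞ → Set (Fin n), ∃ d : List ℕ∞ → Bool,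
      ∀ M : Matroid (Fin n), M.E = Set.univ →
        ∀ a : ℕ → ℕ∞,
          (∀ i, i < c * n ^ k + c → a i = M.eRk (q ((List.range i).map a))) →
          (d ((List.range (c * n ^ k + c)).map a) = true ↔
            ((∃ v : Fin n → (Fin n → ZMod 3),
                ∀ I : Set (Fin n), M.Indep I ↔ LinearIndepOn (ZMod 3) v I) ∧
             (∃ v : Fin n → (Fin n → GaloisField 2 2),
                ∀ I : Set (Fin n), M.Indep I ↔ LinearIndepOn (GaloisField 2 2) v I)))) := by
  rintro ⟨c, d, h⟩
  obtain ⟨m, hm⟩ := Sixth.growth c d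
  obtain ⟨q, dd, hyp⟩ := h (6 * (m + 1))
  obtain ⟨N, hE, hA, hc, h3, h4⟩ := Sixth.ex_good (Nat.succ_pos m)
  refine Sixth.adversary _ q dd hyp N hE ⟨h3, h4⟩ _ (Sixth.Hs_inj m) (by simpa using hm)
    (fun t => ?_)
  obtain ⟨M, e, n, r⟩ := Sixth.ex_bad (Nat.succ_pos m) N hA hc (Sixth.Tf t) (by simp [Sixth.Tf])
  exact ⟨M, e, fun w => n w.1, r⟩

end Pool.Agent.S15456
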