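import Pool.Statements.S16884
import Pool.Agent.Lib.MP_4dc1c3_nt.Core

set_option autoImplicit false
open Pool Pool.MP_4dc1c3_nt

namespace Pool.Agent.S16884

/-- The negation of the preceding statement: There is an infinite, divisibility-directed set S of positive integers and a number m such that, in the field generated by all ζ+ζ⁻¹ with ζ a primitive n-th root of unity for n in S, every algebraic integer that is a sum of squares of integers is a sum of m such squares. -/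
theorem result :
    ¬ (∃ S : Set ℕ, S.Infinite ∧ (∀ n ∈ S, 0 < n) ∧
      (∀ a ∈ S, ∀ b ∈ S, ∃ c ∈ S, a ∣ c ∧ b ∣ c) ∧
      ∃ K : IntermediateField ℚ ℂ,
        K = IntermediateField.adjoin ℚ
          {z : ℂ | ∃ n ∈ S, ∃ ζ : ℂ, IsPrimitiveRoot ζ n ∧ z = ζ + ζ⁻¹} ∧
        ∃ m : ℕ, ∀ x : ℂ, x ∈ K → IsIntegral ℤ x →
          (∃ k : ℕ, ∃ f : Fin k → ℂ, (∀ i, f i ∈ K ∧ IsIntegral ℤ (f i)) ∧
              x = ∑ i, f i ^ 2) →
          ∃ g : Fin m → ℂ, (∀ i, g i ∈ K ∧ IsIntegral ℤ (g i)) ∧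
              x = ∑ i, g i ^ 2) := by
  rintro ⟨S, hSinf, hSpos, -, K, rfl, m, H⟩
  obtain ⟨B, N₀, Q, hQ, hcore⟩ := Pool.Agent.Lib.MP_4dc1c3_nt.core m (2 * m + 1) (by omega)
  obtain ⟨N, hNS, hN⟩ := hSinf.exists_gt N₀
  have hN0 : N ≠ 0 := by omega
  set G : Set ℂ := {z : ℂ | ∃ n ∈ S, ∃ ζ : ℂ, IsPrimitiveRoot ζ n ∧ z = ζ + ζ⁻¹} with hG
  obtain ⟨ζ, hζ⟩ : ∃ ζ : ℂ, IsPrimitiveRoot ζ N := ⟨_, Complex.isPrimitiveRoot_exp N hN0⟩
  have hζ0 : ζ ≠ 0 := hζ.ne_zero hN0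
  have hcheb : ∀ k : ℕ, ζ ^ k + (ζ ^ k)⁻¹ ∈ IntermediateField.adjoin ℚ G := by
    have h1 : ζ + ζ⁻¹ ∈ IntermediateField.adjoin ℚ G :=
      IntermediateField.subset_adjoin _ _ ⟨N, hNS, ζ, hζ, rfl⟩
    intro k
    induction k using Nat.twoStepInduction with
    | zero => simpa using add_mem (one_mem (IntermediateField.adjoin ℚ G)) (one_mem _)
    | one => simpa using h1
    | more k ih1 ih2 =>
      have : ζ ^ (k + 2) + (ζ ^ (k + 2))⁻¹ =
          (ζ + ζ⁻¹) * (ζ ^ (k + 1) + (ζ ^ (k + 1))⁻¹) - (ζ ^ k + (ζ ^ k)⁻¹) := by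
        field_simp
        ring
      rw [this]
      exact sub_mem (mul_mem h1 ih2) ih1
  have hint : ∀ k : ℕ, IsIntegral ℤ (ζ ^ k + (ζ ^ k)⁻¹) := by
    intro k
    have h1 : IsIntegral ℤ ζ := hζ.isIntegral (Nat.pos_of_ne_zero hN0)
    have h2 : IsIntegral ℤ ζ⁻¹ := hζ.inv.isIntegral (Nat.pos_of_ne_zero hN0)
    rw [← inv_pow]
    exact (h1.pow k).add (h2.pow k)
  obtain ⟨g, hg, hsum⟩ := H (∑ i : Fin (2 * m + 1), (ζ ^ (B ^ (i : ℕ)) + (ζ ^ (B ^ (i : ℕ)))⁻¹) ^ 2)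
    (sum_mem (fun i _ => pow_mem (hcheb _) 2))
    (IsIntegral.sum _ (fun i _ => (hint _).pow 2))
    ⟨2 * m + 1, _, fun i => ⟨hcheb _, hint _⟩, rfl⟩
  have hmono : ∀ a b : ℕ, a ∣ b → IntermediateField.adjoin ℚ {z : ℂ | z ^ a = 1} ≤
      IntermediateField.adjoin ℚ {z : ℂ | z ^ b = 1} := by
    rintro a b ⟨c, rfl⟩
    refine IntermediateField.adjoin.mono _ _ _ (fun z hz => ?_)
    have hz' : z ^ a = 1 := hz
    change z ^ (a * c) = 1
    rw [pow_mul, hz', one_pow]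
  have hD : ∀ x ∈ IntermediateField.adjoin ℚ G, (starRingEnd ℂ) x = x ∧
      ∃ M : ℕ, 0 < M ∧ x ∈ IntermediateField.adjoin ℚ {z : ℂ | z ^ M = 1} := by
    intro x hx
    induction hx using IntermediateField.adjoin_induction with
    | mem x hx =>
      obtain ⟨n, hn, ξ, hξ, rfl⟩ := hx
      have hn0 := hSpos n hn
      have h1 : ‖ξ‖ = 1 := Complex.norm_eq_one_of_pow_eq_one hξ.pow_eq_one hn0.ne'
      have h2 : (starRingEnd ℂ) ξ = ξ⁻¹ := (Complex.inv_eq_conj h1).symm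
      have h3 : ξ ∈ IntermediateField.adjoin ℚ {z : ℂ | z ^ n = 1} :=
        IntermediateField.subset_adjoin _ _ hξ.pow_eq_one
      exact ⟨by rw [map_add, map_inv₀, h2, inv_inv, add_comm], n, hn0, add_mem h3 (inv_mem h3)⟩
    | algebraMap r => exact ⟨by simp, 1, one_pos, IntermediateField.algebraMap_mem _ _⟩
    | add x y _ _ hx hy =>
      obtain ⟨h1, a, ha, h2⟩ := hx
      obtain ⟨h3, b, hb, h4⟩ := hy
      exact ⟨by rw [map_add, h1, h3], a * b, Nat.mul_pos ha hb,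
        add_mem (hmono _ _ (Dvd.intro _ rfl) h2) (hmono _ _ (Dvd.intro_left _ rfl) h4)⟩
    | inv x _ hx =>
      obtain ⟨h1, a, ha, h2⟩ := hx
      exact ⟨by rw [map_inv₀, h1], a, ha, inv_mem h2⟩
    | mul x y _ _ hx hy =>
      obtain ⟨h1, a, ha, h2⟩ := hx
      obtain ⟨h3, b, hb, h4⟩ := hy
      exact ⟨by rw [map_mul, h1, h3], a * b, Nat.mul_pos ha hb,
        mul_mem (hmono _ _ (Dvd.intro _ rfl) h2) (hmono _ _ (Dvd.intro_left _ rfl) h4)⟩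
  choose M hM0 hM using fun j => (hD _ (hg j).1).2
  obtain ⟨M₀, hM₀⟩ : ∃ M₀, M₀ = Q * N * ∏ j, M j := ⟨_, rfl⟩
  have hM₀pos : M₀ ≠ 0 := by
    rw [hM₀]
    exact Nat.mul_ne_zero (Nat.mul_ne_zero hQ.ne' hN0)
      (Finset.prod_ne_zero_iff.mpr (fun j _ => (hM0 j).ne'))
  have : NeZero M₀ := ⟨hM₀pos⟩
  obtain ⟨ζ₀, hζ₀⟩ : ∃ ζ : ℂ, IsPrimitiveRoot ζ M₀ := ⟨_, Complex.isPrimitiveRoot_exp M₀ hM₀pos⟩
  have halg : IsAlgebraic ℚ ζ₀ :=
    ((hζ₀.isIntegral (Nat.pos_of_ne_zero hM₀pos)).tower_top (A := ℚ)).isAlgebraic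
  have hcyc : IsCyclotomicExtension {M₀} ℚ (IntermediateField.adjoin ℚ {ζ₀}) := by
    change IsCyclotomicExtension {M₀} ℚ (IntermediateField.adjoin ℚ {ζ₀}).toSubalgebra
    rw [IntermediateField.adjoin_simple_toSubalgebra_of_isAlgebraic halg]
    exact hζ₀.adjoin_isCyclotomicExtension ℚ
  have hnf : NumberField (IntermediateField.adjoin ℚ {ζ₀}) :=
    IsCyclotomicExtension.numberField {M₀} ℚ _
  have hle : IntermediateField.adjoin ℚ {z : ℂ | z ^ M₀ = 1} ≤ IntermediateField.adjoin ℚ {ζ₀} := by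
    rw [IntermediateField.adjoin_le_iff]
    intro z hz
    obtain ⟨i, -, rfl⟩ := hζ₀.eq_pow_of_pow_eq_one hz
    exact pow_mem (IntermediateField.mem_adjoin_simple_self ℚ ζ₀) i
  have hQM : Q ∣ M₀ := by rw [hM₀, mul_assoc]; exact Dvd.intro _ rfl
  have hNM : N ∣ M₀ := by rw [hM₀]; exact Dvd.dvd.mul_right (Dvd.intro_left _ rfl) _
  have hgK : ∀ j, g j ∈ IntermediateField.adjoin ℚ {ζ₀} := fun j =>
    hle (hmono _ _ (by
      rw [hM₀]
      exact Dvd.dvd.mul_left (Finset.dvd_prod_of_mem _ (Finset.mem_univ j)) _) (hM j))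
  have hζK : ζ ∈ IntermediateField.adjoin ℚ {ζ₀} :=
    hle (hmono _ _ hNM (IntermediateField.subset_adjoin _ _ hζ.pow_eq_one))
  refine hcore (IntermediateField.adjoin ℚ {ζ₀}) (algebraMap _ ℂ) M₀ hQM N hN.le hNM ⟨ζ, hζK⟩
    (IsPrimitiveRoot.coe_submonoidClass_iff.mp hζ) (fun j => ⟨g j, hgK j⟩)
    (fun j => IntermediateField.coe_isIntegral_iff.mp (hg j).2) (fun j => (hD _ (hg j).1).1) ?_
  apply Subtype.ext
  push_cast
  exact hsum

end Pool.Agent.S16884
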