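import Pool.Statements.S17651
import Pool.Agent.Lib.MP_870895_nt.Final

set_option autoImplicit false
open MeasureTheory
open Pool Pool.MP_870895_nt

namespace Pool.Agent.S17651

/-- The logarithmic Mahler measure of 1+x+y+z+w+v (the average of log∣1+sum of five unit-circle points∣ over the 5-torus) equals (3/π²)³ times the integral over t>0 of η(e^{-t})²η(e^{-2t})²η(e^{-3t})²η(e^{-6t})² t⁴, where η is Dedekind's eta. -/
theorem result :
    ∀ η : ℝ → ℝ,
      (∀ s : ℝ, η s = Real.exp (-s / 24) * ∏' n : ℕ, (1 - Real.exp (-((n : ℝ) + 1) * s))) →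
      (∫ θ in Set.Icc (0 : Fin 5 → ℝ) 1,
          Real.log ‖(1 : ℂ) + ∑ j : Fin 5, Complex.exp (2 * (Real.pi : ℂ) * Complex.I * (θ j : ℂ))‖)
        = (3 / Real.pi ^ 2) ^ 3 *
          ∫ t in Set.Ioi (0 : ℝ),
            η t ^ 2 * η (2 * t) ^ 2 * η (3 * t) ^ 2 * η (6 * t) ^ 2 * t ^ 4 := by
  intro η h
  obtain rfl : η = Pool.Agent.Lib.MP_870895_nt.etaR := funext h
  exact Pool.Agent.Lib.MP_870895_nt.main

end Pool.Agent.S17651
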