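import Pool.Statements.S18191
import Pool.Agent.Lib.MP_b2ee0b_nt.Torsion
import Pool.Agent.Lib.MP_b2ee0b_nt.Br
import Pool.Agent.Lib.MP_b2ee0b_nt.Cov

set_option autoImplicit false
open Pool Pool.MP_b2ee0b_nt

namespace Pool.Agent.S18191

/-- For distinct nonzero integers a,b,c with ab+4, ac+4, bc+4 all squares, the rational torsion of the curve y²=(ax+4)(bx+4)(cx+4) (in Weierstrass form) is never isomorphic to Z/2 × Z/6. -/
theorem result :
    ∀ a b c : ℤ, a ≠ 0 → b ≠ 0 → c ≠ 0 → a ≠ b → a ≠ c → b ≠ c →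
      IsSquare (a * b + 4) → IsSquare (a * c + 4) → IsSquare (b * c + 4) →
      ¬ Nonempty
        (↥(AddCommGroup.torsion
            (({ a₁ := 0,
                a₂ := (4 * (a * b + a * c + b * c) : ℚ),
                a₃ := 0,
                a₄ := (16 * (a * b * (a * c) + a * b * (b * c) + a * c * (b * c)) : ℚ),
                a₆ := (64 * (a * b) * (a * c) * (b * c) : ℚ) } :
                WeierstrassCurve ℚ).toAffine.Point))
          ≃+ ZMod 2 × ZMod 6) := by
  intro a b c ha hb hc hab hac hbc h1 h2 h3 h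
  refine Pool.Agent.Lib.MP_b2ee0b_nt.assemble (fun _ _ _ _ _ _ _ _ _ _ _ _ _ _ _ g => ?_)
    ha hb hc hab hac hbc h1 h2 h3
    (Pool.Agent.Lib.MP_b2ee0b_nt.T3_of_iso a b c ha hb hc hab hac hbc h)
  obtain ⟨e, q, ⟨X⟩⟩ := g.cx
  exact Pool.Agent.Lib.MP_b2ee0b_nt.TM.cover X

end Pool.Agent.S18191
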