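import Pool.Statements.S19360
import Pool.Agent.Lib.MP_63bd8a_pr.Main

set_option autoImplicit false
open MeasureTheory ProbabilityTheory
open Pool Pool.MP_63bd8a_pr

namespace Pool.Agent.S19360

/-- The negation of the preceding statement: For each C>0 there is c>0 such that, in every dimension, if a probability measure has variance of convex Lipschitz g at most C times the mean squared local slope, then convex 1-Lipschitz f satisfies P(f ≤ median − t) ≤ 2exp(−ct). -/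
theorem result :
    ¬ (∀ C : ℝ, 0 < C → ∃ c : ℝ, 0 < c ∧
    ∀ (n : ℕ) (μ : Measure (EuclideanSpace ℝ (Fin n))), IsProbabilityMeasure μ →
      (∀ (g : EuclideanSpace ℝ (Fin n) → ℝ) (L : NNReal),
          ConvexOn ℝ Set.univ g → LipschitzWith L g →
          evariance g μ ≤ ENNReal.ofReal C *
            ∫⁻ x, (Filter.limsup (fun y => ENNReal.ofReal (|g y - g x| / dist y x))
                    (nhdsWithin x {x}ᶜ)) ^ 2 ∂μ) →
      ∀ f : EuclideanSpace ℝ (Fin n) → ℝ, ConvexOn ℝ Set.univ f → LipschitzWith 1 f →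
        ∀ m : ℝ, (1 / 2 : ENNReal) ≤ μ {x | f x ≤ m} → (1 / 2 : ENNReal) ≤ μ {x | m ≤ f x} →
          ∀ t : ℝ, 0 < t → μ {x | f x ≤ m - t} ≤ ENNReal.ofReal (2 * Real.exp (-(c * t)))) := by
  intro H
  obtain ⟨c, hc, H⟩ := H 4 (by norm_num)
  obtain ⟨k, hk2, hk⟩ := Pool.Agent.Lib.MP_63bd8a_pr.exists_k c hc
  have hn : 2 ≤ k ^ 2 := by nlinarith
  have hk' : (2 : ℝ) ≤ k := by exact_mod_cast hk2
  have hn' : (2 : ℝ) ≤ ((k ^ 2 : ℕ) : ℝ) := by exact_mod_cast hn
  have hnorm : ∀ σ : Fin (k ^ 2) → Bool, ‖Pool.Agent.Lib.MP_63bd8a_pr.pt σ‖ = k := by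
    intro σ
    rw [Pool.Agent.Lib.MP_63bd8a_pr.norm_pt]
    push_cast
    exact Real.sqrt_sq (by positivity)
  have hhalf : (1 / 2 : ENNReal) ≤ ENNReal.ofReal (1 - 1 / ((k ^ 2 : ℕ) : ℝ)) := by
    have h1 : (1 / 2 : ℝ) ≤ 1 - 1 / ((k ^ 2 : ℕ) : ℝ) := by
      have : 1 / ((k ^ 2 : ℕ) : ℝ) ≤ 1 / 2 := by
        rw [div_le_div_iff₀ (by linarith) (by norm_num)]; linarith
      linarith
    have h2 : (1 / 2 : ENNReal) = ENNReal.ofReal (1 / 2) := by
      rw [ENNReal.ofReal_div_of_pos (by norm_num)]; simp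
    rw [h2]
    exact ENNReal.ofReal_le_ofReal h1
  have hle : ∀ r : ℝ, MeasurableSet {x : EuclideanSpace ℝ (Fin (k ^ 2)) | ‖x‖ ≤ r} := fun r =>
    measurableSet_le (by fun_prop) (by fun_prop)
  have hge : ∀ r : ℝ, MeasurableSet {x : EuclideanSpace ℝ (Fin (k ^ 2)) | r ≤ ‖x‖} := fun r =>
    measurableSet_le (by fun_prop) (by fun_prop)
  have key := H (k ^ 2) (Pool.Agent.Lib.MP_63bd8a_pr.mu (k ^ 2))
    (Pool.Agent.Lib.MP_63bd8a_pr.isProb_mu _ (by omega))
    (fun g _ hg _ => Pool.Agent.Lib.MP_63bd8a_pr.poincare_mu _ hn g hg)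
    (fun x => ‖x‖) convexOn_univ_norm lipschitzWith_one_norm k
    (by
      rw [Pool.Agent.Lib.MP_63bd8a_pr.mu_apply _ _ (hle _)]
      refine le_trans ?_ le_add_self
      simp only [Set.indicator, Set.mem_ofPred_eq, hnorm, le_refl, if_true, Pi.one_apply, mul_one]
      rw [Pool.Agent.Lib.MP_63bd8a_pr.sum_const_cube _ (by omega)]
      exact hhalf)
    (by
      rw [Pool.Agent.Lib.MP_63bd8a_pr.mu_apply _ _ (hge _)]
      refine le_trans ?_ le_add_self
      simp only [Set.indicator, Set.mem_ofPred_eq, hnorm, le_refl, if_true, Pi.one_apply, mul_one]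
      rw [Pool.Agent.Lib.MP_63bd8a_pr.sum_const_cube _ (by omega)]
      exact hhalf)
    k (by linarith)
  rw [Pool.Agent.Lib.MP_63bd8a_pr.mu_apply _ _ (hle _)] at key
  have key2 := le_trans le_self_add key
  simp only [Set.indicator, Set.mem_ofPred_eq, norm_zero, sub_self, le_refl, if_true,
    Pi.one_apply, mul_one] at key2
  rw [ENNReal.ofReal_le_ofReal_iff (by positivity)] at key2
  linarith

end Pool.Agent.S19360
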